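import Mathlib

/-!
ROW GM/Rc (project MP_78d38b_GM, about 120 lines): the characteristic polynomial of an element `x` with stabiliser `S`.  Only Mathlib.

Setting: a finite group `D` acts on the field `F2` by ring homomorphisms `φ g`, the fixed elements are the elements of `F0` (`ψ : F0 →+* F2`), `S` is a subgroup, `x` is fixed exactly by the elements of `S` (hS).
exists_chi: `p := ∏ q : D ⧸ S, (X - C (φ q.out x))`; it is fixed by `D`: `p.map (φ h) = ∏ (X - C (φ h (φ q.out x))) = ∏ (X - C (φ (h • q).out x))` (`h * q.out = (h • q).out * s` with `s ∈ S`: `QuotientGroup.eq`, `QuotientGroup.out_eq'`), reindex by `MulAction.toPerm h`.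
So the coefficients are fixed by `D` and come from `F0` (hfix): `p = χ.map ψ` (`Polynomial.mem_lifts`/`lifts_iff_coeff_lifts`, or build `χ = ∑ C (choice) X^i`). Monic, degree `= Nat.card (D ⧸ S) = S.index` (`Polynomial.monic_map_iff`-like: `Function.Injective.monic_map_iff`, `natDegree_map`).
chi_eval: a root of `χ.map ψ` is some `φ g x`; `χ` has no root in `F0` if `S ≠ ⊤`: a root `t` gives `ψ t = φ g x`, so `φ h (φ g x) = φ g x` for all `h`, so `φ (g⁻¹ h g) x = x` and `g⁻¹ h g ∈ S` for all `h`: `S = ⊤`.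
chi_dvd: the elements `φ q.out x` are different for different `q` (hS), all are roots of `H.map ψ`, so their product divides it (`Finset.prod_dvd_of_coprime`, `Polynomial.pairwise_coprime_X_sub_C`, `Polynomial.dvd_iff_isRoot`), and `Polynomial.map_dvd_map'`.
chi_cop: if no `φ g x` is a root of `f.map ψ` then `χ` and `f` are coprime (`Polynomial.isCoprime_map`, `IsCoprime.prod_left`, `X - C c` is irreducible/prime).
-/

set_option autoImplicit false
set_option linter.unusedSectionVars false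
open scoped Classical

namespace H38GM

variable {F0 F2 : Type} [Field F0] [Field F2] [CharZero F2] (ψ : F0 →+* F2) {D : Type} [Group D]
  [Finite D] (S : Subgroup D) (φ : D → (F2 →+* F2))

theorem Rc_out (h : D) (q : D ⧸ S) (hmul : ∀ g h x, φ (g * h) x = φ g (φ h x)) {x : F2}
    (hx : ∀ s ∈ S, φ s x = x) : φ h (φ q.out x) = φ (h • q).out x := by
  have h1 : (QuotientGroup.mk (h * q.out) : D ⧸ S) = QuotientGroup.mk ((h • q).out) := by
    rw [QuotientGroup.out_eq']
    conv_rhs => rw [← QuotientGroup.out_eq' q]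
    rfl
  have h2 := QuotientGroup.eq.1 h1
  have h3 : (h • q).out = (h * q.out) * ((h * q.out)⁻¹ * (h • q).out) := by group
  rw [h3, hmul (h * q.out), hx _ h2, hmul]

theorem exists_chi [Fintype (D ⧸ S)] (hmul : ∀ g h x, φ (g * h) x = φ g (φ h x))
    (hφ : ∀ g x, φ g (ψ x) = ψ x) (hfix : ∀ x, (∀ g, φ g x = x) → ∃ y, ψ y = x) {x : F2}
    (hx : ∀ s ∈ S, φ s x = x) :
    ∃ χ : Polynomial F0, χ.Monic ∧ χ.natDegree = S.index ∧
      χ.map ψ = ∏ q : D ⧸ S, (Polynomial.X - Polynomial.C (φ q.out x)) := by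
  have hmap : ∀ h : D, (∏ q : D ⧸ S, (Polynomial.X - Polynomial.C (φ q.out x))).map (φ h)
      = ∏ q : D ⧸ S, (Polynomial.X - Polynomial.C (φ q.out x)) := by
    intro h
    rw [Polynomial.map_prod]
    have h1 : ∀ q : D ⧸ S, (Polynomial.X - Polynomial.C (φ q.out x)).map (φ h)
        = Polynomial.X - Polynomial.C (φ ((MulAction.toPerm h : Equiv.Perm (D ⧸ S)) q).out x) := by
      intro q
      rw [Polynomial.map_sub, Polynomial.map_X, Polynomial.map_C, Rc_out S φ h q hmul hx]
      rfl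
    rw [Finset.prod_congr rfl (fun q _ => h1 q)]
    exact Equiv.prod_comp (MulAction.toPerm h : Equiv.Perm (D ⧸ S))
      (fun q => Polynomial.X - Polynomial.C (φ q.out x))
  have hl : (∏ q : D ⧸ S, (Polynomial.X - Polynomial.C (φ q.out x))) ∈ Polynomial.lifts ψ := by
    rw [Polynomial.lifts_iff_coeff_lifts]
    intro n
    obtain ⟨y, hy⟩ := hfix ((∏ q : D ⧸ S, (Polynomial.X - Polynomial.C (φ q.out x))).coeff n)
      (fun g => by
        rw [← Polynomial.coeff_map, hmap g])
    exact ⟨y, hy⟩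
  obtain ⟨χ, hχ⟩ := (Polynomial.mem_lifts _).1 hl
  refine ⟨χ, ?_, ?_, hχ⟩
  · have h1 : (χ.map ψ).Monic := by
      rw [hχ]
      exact Polynomial.monic_prod_of_monic _ _ (fun q _ => Polynomial.monic_X_sub_C _)
    exact (Function.Injective.monic_map_iff ψ.injective).2 h1
  · rw [← Polynomial.natDegree_map_eq_of_injective ψ.injective χ, hχ,
      Polynomial.natDegree_prod_of_monic _ _ (fun q _ => Polynomial.monic_X_sub_C _)]
    simp only [Polynomial.natDegree_X_sub_C, Finset.sum_const, Finset.card_univ, smul_eq_mul,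
      mul_one]
    rw [Subgroup.index, Nat.card_eq_fintype_card]

variable {χ : Polynomial F0} {x : F2}

theorem chi_noroot [Fintype (D ⧸ S)] (hmul : ∀ g h x, φ (g * h) x = φ g (φ h x))
    (h1 : ∀ x, φ 1 x = x) (hφ : ∀ g x, φ g (ψ x) = ψ x) (hS : ∀ g, φ g x = x → g ∈ S)
    (hχ : χ.map ψ = ∏ q : D ⧸ S, (Polynomial.X - Polynomial.C (φ q.out x))) (hS1 : S ≠ ⊤) (t : F0) :
    χ.eval t ≠ 0 := by
  intro ht
  have h2 : (χ.map ψ).eval (ψ t) = 0 := by
    rw [Polynomial.eval_map, Polynomial.eval₂_at_apply, ht, map_zero]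
  rw [hχ, Polynomial.eval_prod, Finset.prod_eq_zero_iff] at h2
  obtain ⟨q, -, hq⟩ := h2
  simp only [Polynomial.eval_sub, Polynomial.eval_X, Polynomial.eval_C] at hq
  have hq1 : ψ t = φ q.out x := sub_eq_zero.1 hq
  apply hS1
  rw [Subgroup.eq_top_iff']
  intro d
  apply hS
  have h3 : φ (q.out * d * q.out⁻¹) (φ q.out x) = φ q.out x := by
    rw [← hq1, hφ]
  have h4 : d = q.out⁻¹ * ((q.out * d * q.out⁻¹) * q.out) := by group
  rw [h4, hmul, hmul, h3, ← hmul, inv_mul_cancel, h1]

theorem chi_dvd [Fintype (D ⧸ S)] (hmul : ∀ g h x, φ (g * h) x = φ g (φ h x))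
    (h1 : ∀ x, φ 1 x = x) (hS : ∀ g, φ g x = x → g ∈ S)
    (hχ : χ.map ψ = ∏ q : D ⧸ S, (Polynomial.X - Polynomial.C (φ q.out x))) {H : Polynomial F0}
    (hH : ∀ g : D, H.eval₂ ψ (φ g x) = 0) : χ ∣ H := by
  rw [← Polynomial.map_dvd_map' ψ, hχ]
  have hinj : Function.Injective (fun q : D ⧸ S => φ q.out x) := by
    intro a b hab
    have hab' : φ a.out x = φ b.out x := hab
    have h2 : a.out⁻¹ * b.out ∈ S := by
      apply hS
      rw [hmul, ← hab', ← hmul, inv_mul_cancel, h1]
    have h3 := QuotientGroup.eq.2 h2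
    rwa [QuotientGroup.out_eq', QuotientGroup.out_eq'] at h3
  apply Finset.prod_dvd_of_coprime
  · intro a _ b _ hab
    exact Polynomial.pairwise_coprime_X_sub_C hinj hab
  · intro q _
    rw [Polynomial.dvd_iff_isRoot, Polynomial.IsRoot.def, Polynomial.eval_map]
    exact hH _

theorem chi_cop [Fintype (D ⧸ S)]
    (hχ : χ.map ψ = ∏ q : D ⧸ S, (Polynomial.X - Polynomial.C (φ q.out x))) {H : Polynomial F0}
    (hH : ∀ g : D, H.eval₂ ψ (φ g x) ≠ 0) : IsCoprime χ H := by
  rw [← Polynomial.isCoprime_map ψ, hχ]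
  apply IsCoprime.prod_left
  intro q _
  rw [(Polynomial.irreducible_X_sub_C _).coprime_iff_not_dvd, Polynomial.dvd_iff_isRoot,
    Polynomial.IsRoot.def, Polynomial.eval_map]
  exact hH _

end H38GM
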