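import Mathlib

/-!
ROW GM/Rk (project MP_78d38b_GM, about 120 lines): two polynomials `P, Q` over `F0` such that the function `P(X) + Q(X) Y` vanishes at the conjugates of a point `(x, y)`.  Only Mathlib.

Setting: a finite group `D` acts on the field `F2` by ring homomorphisms `φ g`, the fixed elements are the elements of `F0` (`ψ : F0 →+* F2`), `S` is a subgroup of index `2 k + 1`, `x` and `y` are fixed by `S`.
PROOF of exists_PQ. The conditions `P(φ g x) + Q(φ g x) φ g y = 0` depend only on the class of `g` modulo `S` (`φ (g s) x = φ g (φ s x) = φ g x`): `2 k + 1` linear equations with coefficients in `F2` in the `(k + 2) + k = 2 k + 2` unknown coefficients `c : Fin (k + 2) ⊕ Fin k → F2`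
(`P = ∑ c (inl i) X^i`, `Q = ∑ c (inr i) X^i`). So there is a solution `c ≠ 0` over `F2` (`LinearMap` from a space of bigger dimension is not injective: `LinearMap.exists_ne_zero_of_...`/`Matrix.exists_mulVec_eq_zero_iff` is for square matrices; use `LinearMap.ker_ne_bot_of_finrank_lt` or
`exists_ne_zero_of_finrank_lt`-like), scale it: `c j0 = 1` for some `j0`. For `h : D` the vector `φ h ∘ c` is again a solution: apply `φ h` to the equation at `h⁻¹ g`. So `c' := ∑ h, φ h ∘ c` is a solution, `c' j0 = |D| ≠ 0` (characteristic zero), and all its coordinates are fixed by `D` (`φ g (φ h t) = φ (g h) t`, reindex),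
so they are in `F0` (hfix).
-/

set_option autoImplicit false
set_option linter.unusedSectionVars false
open scoped Classical

namespace H38GM

variable {F0 F2 : Type} [Field F0] [Field F2] [CharZero F2] (ψ : F0 →+* F2) {D : Type} [Group D]
  [Finite D] (S : Subgroup D) (φ : D → (F2 →+* F2))

/-- the equation as a function of the unknown coefficients -/
noncomputable def Eq0 {k : ℕ} (x y : F2) (c : Fin (k + 2) ⊕ Fin k → F2) (g : D) : F2 :=
  (∑ i : Fin (k + 2), c (Sum.inl i) * (φ g x) ^ (i : ℕ)) +
    (∑ i : Fin k, c (Sum.inr i) * (φ g x) ^ (i : ℕ)) * φ g y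

omit [CharZero F2] [Finite D] in
lemma coeff_sum_fin {n : ℕ} (f : Fin n → F0) (i : Fin n) :
    (∑ j : Fin n, Polynomial.C (f j) * Polynomial.X ^ (j : ℕ)).coeff (i : ℕ) = f i := by
  rw [Polynomial.finset_sum_coeff, Finset.sum_eq_single i]
  · simp
  · intro j _ hj
    rw [Polynomial.coeff_C_mul_X_pow, if_neg]
    intro h
    exact hj (Fin.ext h.symm)
  · intro h
    exact absurd (Finset.mem_univ _) h

theorem exists_PQ (hmul : ∀ g h x, φ (g * h) x = φ g (φ h x)) (hφ : ∀ g x, φ g (ψ x) = ψ x)
    (hfix : ∀ x, (∀ g, φ g x = x) → ∃ y, ψ y = x) {x y : F2} (hx : ∀ s ∈ S, φ s x = x)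
    (hy : ∀ s ∈ S, φ s y = y) {k : ℕ} (hk : S.index = 2 * k + 1) :
    ∃ P Q : Polynomial F0, (P ≠ 0 ∨ Q ≠ 0) ∧ P.degree < ((k + 2 : ℕ) : WithBot ℕ) ∧
      Q.degree < ((k : ℕ) : WithBot ℕ) ∧
      ∀ g : D, P.eval₂ ψ (φ g x) + Q.eval₂ ψ (φ g x) * φ g y = 0 := by
  haveI : Fintype D := Fintype.ofFinite D
  haveI : Fintype (D ⧸ S) := Fintype.ofFinite _
  have hcardQ : Fintype.card (D ⧸ S) = 2 * k + 1 := by
    rw [← hk, Subgroup.index, Nat.card_eq_fintype_card]
  -- the linear map
  let L : (Fin (k + 2) ⊕ Fin k → F2) →ₗ[F2] ((D ⧸ S) → F2) :=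
    { toFun := fun c q => Eq0 φ x y c q.out
      map_add' := by
        intro a b
        funext q
        simp only [Eq0, Pi.add_apply, add_mul, Finset.sum_add_distrib]
        ring
      map_smul' := by
        intro r a
        funext q
        simp only [Eq0, Pi.smul_apply, smul_eq_mul, RingHom.id_apply, mul_add, Finset.mul_sum,
          Finset.sum_mul]
        congr 1 <;> refine Finset.sum_congr rfl fun i _ => ?_ <;> ring }
  have hker : LinearMap.ker L ≠ ⊥ := by
    apply LinearMap.ker_ne_bot_of_finrank_lt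
    rw [Module.finrank_fintype_fun_eq_card, Module.finrank_fintype_fun_eq_card, hcardQ]
    simp only [Fintype.card_sum, Fintype.card_fin]
    omega
  obtain ⟨c0, hc0, hc0ne⟩ := (Submodule.ne_bot_iff _).1 hker
  obtain ⟨j0, hj0⟩ : ∃ j0, c0 j0 ≠ 0 := by
    by_contra hcon
    push Not at hcon
    exact hc0ne (funext hcon)
  have hphi1 : ∀ t : F2, φ 1 t = t := by
    intro t
    have h1 : φ 1 (φ 1 t) = φ 1 t := by rw [← hmul, one_mul]
    exact (φ 1).injective h1
  -- the point is unchanged inside a class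
  have hclass : ∀ (g : D) (z : F2), (∀ s ∈ S, φ s z = z) →
      φ ((QuotientGroup.mk g : D ⧸ S).out) z = φ g z := by
    intro g z hz
    obtain ⟨s, hs⟩ := QuotientGroup.mk_out_eq_mul S g
    rw [hs, hmul, hz _ s.2]
  let c : Fin (k + 2) ⊕ Fin k → F2 := fun j => (c0 j0)⁻¹ * c0 j
  have hc1 : c j0 = 1 := inv_mul_cancel₀ hj0
  have hc : ∀ g : D, Eq0 φ x y c g = 0 := by
    intro g
    have h1 : L c0 = 0 := hc0
    have h2 : Eq0 φ x y c0 ((QuotientGroup.mk g : D ⧸ S).out) = 0 := congrFun h1 _
    have h3 : Eq0 φ x y c0 g = 0 := by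
      have h4 := h2
      simp only [Eq0, hclass g x hx, hclass g y hy] at h4
      exact h4
    have h5 : Eq0 φ x y c g = (c0 j0)⁻¹ * Eq0 φ x y c0 g := by
      simp only [Eq0, c, mul_add, Finset.mul_sum, Finset.sum_mul]
      congr 1 <;> refine Finset.sum_congr rfl fun i _ => ?_ <;> ring
    rw [h5, h3, mul_zero]
  have hc' : ∀ (h g : D), Eq0 φ x y (fun j => φ h (c j)) g = 0 := by
    intro h g
    have h1 := hc (h⁻¹ * g)
    have hz : ∀ z : F2, φ h (φ (h⁻¹ * g) z) = φ g z := by
      intro z
      rw [← hmul, mul_inv_cancel_left]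
    have h2 := congrArg (φ h) h1
    simp only [Eq0, map_add, map_sum, map_mul, map_pow, map_zero, hz] at h2
    simpa only [Eq0] using h2
  let d : Fin (k + 2) ⊕ Fin k → F2 := fun j => ∑ h : D, φ h (c j)
  have hd : ∀ g : D, Eq0 φ x y d g = 0 := by
    intro g
    have h1 : Eq0 φ x y d g = ∑ h : D, Eq0 φ x y (fun j => φ h (c j)) g := by
      simp only [Eq0, d, Finset.sum_mul, Finset.sum_add_distrib]
      congr 1
      · exact Finset.sum_comm
      · rw [Finset.sum_comm]
    rw [h1]
    exact Finset.sum_eq_zero fun h _ => hc' h g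
  have hdj0 : d j0 ≠ 0 := by
    have h1 : d j0 = (Fintype.card D : F2) := by
      simp only [d, hc1, map_one, Finset.sum_const, Finset.card_univ, nsmul_eq_mul, mul_one]
    rw [h1]
    exact Nat.cast_ne_zero.2 Fintype.card_ne_zero
  have hdfix : ∀ j g, φ g (d j) = d j := by
    intro j g
    simp only [d, map_sum, ← hmul]
    exact Fintype.sum_equiv (Equiv.mulLeft g) _ _ fun h => rfl
  choose e he using fun j => hfix (d j) (hdfix j)
  refine ⟨∑ i : Fin (k + 2), Polynomial.C (e (Sum.inl i)) * Polynomial.X ^ (i : ℕ),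
    ∑ i : Fin k, Polynomial.C (e (Sum.inr i)) * Polynomial.X ^ (i : ℕ), ?_,
    Polynomial.degree_sum_fin_lt _, Polynomial.degree_sum_fin_lt _, ?_⟩
  · have hej0 : e j0 ≠ 0 := by
      intro h
      apply hdj0
      rw [← he j0, h, map_zero]
    rcases j0 with i | i
    · left
      intro h
      apply hej0
      have h1 := coeff_sum_fin (fun i => e (Sum.inl i)) i
      rw [h, Polynomial.coeff_zero] at h1
      exact h1.symm
    · right
      intro h
      apply hej0
      have h1 := coeff_sum_fin (fun i => e (Sum.inr i)) i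
      rw [h, Polynomial.coeff_zero] at h1
      exact h1.symm
  · intro g
    have h1 := hd g
    simp only [Polynomial.eval₂_finset_sum, Polynomial.eval₂_mul, Polynomial.eval₂_C,
      Polynomial.eval₂_pow, Polynomial.eval₂_X, he]
    simpa only [Eq0] using h1

end H38GM
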