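import Pool.Agent.H38.GM.Ra

/-!
ROW GM/Rn (project MP_78d38b_GM, about 130 lines): the norm of the square root.

Setting as in Rc.lean (a finite group `D` acts on `F2` by `φ`, fixed elements `= F0`, `S` a subgroup of odd index, `z : Fin 3 → F2` fixed by `S`).
rep_smul: `h * q.out = (h • q).out * s` with `s ∈ S` (`QuotientGroup.eq`, `QuotientGroup.out_eq'`).
PROOF of exists_N. `N := ∏_q (φ q.out z)` (product in the sense of `m3`: `Finset.univ.fold (m3 (ψ A) (ψ B)) ![1, 0, 0] (fun q => fun j => φ q.out (z j))`, see `fold_fix`, `fold_const` and the end of `odd_descent` in Pool/Agent/H30/OD/Od1.lean, where the same is done for `S = ⊥`; or simpler: work in the ring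
`RR (ψ A) (ψ B)` with the ring homomorphisms `RR → RR` induced by `φ g`: `tr d ↦ tr (φ g ∘ d)` is multiplicative by tr_m3 and `Te_m3_map`). It is fixed by `D` (rep_smul, reindex by `MulAction.toPerm h`), so it comes from `F0`: `w`. `N * N = ∏_q φ q.out (z * z) = ∏_q (d * (φ q.out x - θ)) = d ^ S.index * ∏_q (φ q.out x - θ)`, and
`∏_q (φ q.out x - θ) = (-1) ^ S.index * (χ.map ψ)(θ) = - χ(θ)` (odd index; `mk_eq`, `map_prod`; the map `RR A B → RR (ψ A) (ψ B)`, `tr d ↦ tr (ψ ∘ d)`, is an injective ring homomorphism and maps `mk χ` to `mk (χ.map ψ)`: it is `AdjoinRoot.map`/`AdjoinRoot.lift`).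
exists_root is the special case without `x`: `N * N = u ^ S.index`, `S.index = 2 m + 1`, and `u = (N / u^m)^2`.
-/

set_option autoImplicit false
set_option linter.unusedSectionVars false
open scoped Classical

open WeierstrassCurve H76PP H30ZO H73P2 Pool.Agent.H10 H30OD

namespace H38GM

section aux

variable {F F' : Type} [Field F] [Field F'] (σ : F →+* F') {a b : F} {a' b' : F'}

private theorem rn_lift (ha : σ a = a') (hb : σ b = b') :
    (ff a b).eval₂ ((algebraMap F' (RR a' b')).comp σ) (th a' b') = 0 := by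
  have h := th_root a' b'
  have e : ff a b = Polynomial.X ^ 3 + Polynomial.C a * Polynomial.X + Polynomial.C b := rfl
  rw [e, Polynomial.eval₂_add, Polynomial.eval₂_add, Polynomial.eval₂_mul, Polynomial.eval₂_pow,
    Polynomial.eval₂_X, Polynomial.eval₂_C, Polynomial.eval₂_C, RingHom.comp_apply,
    RingHom.comp_apply, ha, hb]
  exact h

private noncomputable def rmap (ha : σ a = a') (hb : σ b = b') : RR a b →+* RR a' b' :=
  AdjoinRoot.lift ((algebraMap F' (RR a' b')).comp σ) (th a' b') (rn_lift σ ha hb)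

private theorem rmap_C (ha : σ a = a') (hb : σ b = b') (x : F) :
    rmap σ ha hb (algebraMap F (RR a b) x) = algebraMap F' (RR a' b') (σ x) :=
  AdjoinRoot.lift_of _

private theorem rmap_th (ha : σ a = a') (hb : σ b = b') :
    rmap σ ha hb (th a b) = th a' b' :=
  AdjoinRoot.lift_root _

private theorem rmap_tr (ha : σ a = a') (hb : σ b = b') (d : Fin 3 → F) :
    rmap σ ha hb (tr a b d) = tr a' b' (fun j => σ (d j)) := by
  unfold tr
  rw [map_add, map_add, map_mul, map_mul, map_pow, rmap_C, rmap_C, rmap_C, rmap_th]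

private theorem rmap_mk (ha : σ a = a') (hb : σ b = b') (p : Polynomial F) :
    rmap σ ha hb (AdjoinRoot.mk (ff a b) p) = AdjoinRoot.mk (ff a' b') (p.map σ) := by
  induction p using Polynomial.induction_on' with
  | add p q hp hq => rw [map_add, map_add, Polynomial.map_add, map_add, hp, hq]
  | monomial n x =>
    rw [Polynomial.map_monomial, ← Polynomial.C_mul_X_pow_eq_monomial,
      ← Polynomial.C_mul_X_pow_eq_monomial]
    simp only [map_mul, map_pow]
    have h1 : AdjoinRoot.mk (ff a b) (Polynomial.C x) = algebraMap F (RR a b) x := rfl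
    have h2 : AdjoinRoot.mk (ff a b) Polynomial.X = th a b := rfl
    have h3 : AdjoinRoot.mk (ff a' b') (Polynomial.C (σ x)) = algebraMap F' (RR a' b') (σ x) := rfl
    have h4 : AdjoinRoot.mk (ff a' b') Polynomial.X = th a' b' := rfl
    rw [h1, h2, h3, h4, rmap_C, rmap_th]

private theorem rmap_inj (ha : σ a = a') (hb : σ b = b') :
    Function.Injective (rmap σ ha hb) := by
  intro r t h
  obtain ⟨r, rfl⟩ := tr_surj a b r
  obtain ⟨t, rfl⟩ := tr_surj a b t
  rw [rmap_tr, rmap_tr] at h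
  have h1 := tr_inj a' b' h
  have h2 : r = t := by
    funext j
    exact σ.injective (congrFun h1 j)
  rw [h2]

end aux

variable {F0 F2 : Type} [Field F0] [CharZero F0] [Field F2] [CharZero F2] (ψ : F0 →+* F2)
  {D : Type} [Group D] [Finite D] (S : Subgroup D) (φ : D → (F2 →+* F2)) {A B : F0}

private theorem rn_norm [Fintype (D ⧸ S)]
    (hmul : ∀ g h x, φ (g * h) x = φ g (φ h x)) (hφ : ∀ g x, φ g (ψ x) = ψ x)
    (hfix : ∀ x, (∀ g, φ g x = x) → ∃ y, ψ y = x) {z : Fin 3 → F2}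
    (hz : ∀ s ∈ S, ∀ j, φ s (z j) = z j) :
    ∃ n0 : Fin 3 → F0, rmap ψ rfl rfl (tr A B n0) =
      ∏ q : D ⧸ S, rmap (φ q.out) (hφ q.out A) (hφ q.out B) (tr (ψ A) (ψ B) z) := by
  obtain ⟨n, hn⟩ := tr_surj (ψ A) (ψ B)
    (∏ q : D ⧸ S, rmap (φ q.out) (hφ q.out A) (hφ q.out B) (tr (ψ A) (ψ B) z))
  have hfixN : ∀ h : D, rmap (φ h) (hφ h A) (hφ h B) (tr (ψ A) (ψ B) n) = tr (ψ A) (ψ B) n := by
    intro h
    rw [hn, map_prod]
    refine Fintype.prod_equiv (MulAction.toPerm h) _ _ fun q => ?_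
    rw [MulAction.toPerm_apply, rmap_tr, rmap_tr, rmap_tr]
    obtain ⟨s, hs, he⟩ : ∃ s ∈ S, h * q.out = (h • q).out * s := by
      refine ⟨(h • q).out⁻¹ * (h * q.out), ?_, by group⟩
      rw [← QuotientGroup.eq, QuotientGroup.out_eq']
      conv_lhs => rw [← QuotientGroup.out_eq' q]
      rfl
    have e : (fun j => φ h (φ q.out (z j))) = fun j => φ (h • q).out (z j) := by
      funext j
      rw [← hmul, he, hmul, hz s hs j]
    rw [e]
  have h1 : ∀ j, ∃ y, ψ y = n j := by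
    intro j
    refine hfix _ fun g => ?_
    have h2 := hfixN g
    rw [rmap_tr] at h2
    exact congrFun (tr_inj _ _ h2) j
  choose n0 hn0 using h1
  refine ⟨n0, ?_⟩
  rw [← hn, rmap_tr]
  have h3 : (fun j => ψ (n0 j)) = n := funext hn0
  rw [h3]

theorem exists_N [Fintype (D ⧸ S)] (hodd : Odd S.index)
    (hmul : ∀ g h x, φ (g * h) x = φ g (φ h x)) (hφ : ∀ g x, φ g (ψ x) = ψ x)
    (hfix : ∀ x, (∀ g, φ g x = x) → ∃ y, ψ y = x) {d : Fin 3 → F0} {x : F2} {z : Fin 3 → F2}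
    (hx : ∀ s ∈ S, φ s x = x) (hz : ∀ s ∈ S, ∀ j, φ s (z j) = z j)
    (h : m3 (ψ A) (ψ B) (fun j => ψ (d j)) ![x, -1, 0] = m3 (ψ A) (ψ B) z z)
    {χ : Polynomial F0}
    (hχ : χ.map ψ = ∏ q : D ⧸ S, (Polynomial.X - Polynomial.C (φ q.out x))) :
    ∃ w : RR A B, tr A B d ^ S.index * (-(AdjoinRoot.mk (ff A B) χ)) = w * w := by
  obtain ⟨n0, hn0⟩ := rn_norm ψ S φ (A := A) (B := B) hmul hφ hfix hz
  refine ⟨tr A B n0, ?_⟩
  apply rmap_inj ψ (rfl : ψ A = ψ A) (rfl : ψ B = ψ B)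
  have hidx : S.index = Fintype.card (D ⧸ S) := by
    rw [Subgroup.index, Nat.card_eq_fintype_card]
  have hzz : tr (ψ A) (ψ B) z * tr (ψ A) (ψ B) z =
      tr (ψ A) (ψ B) (fun j => ψ (d j)) * tr (ψ A) (ψ B) ![x, -1, 0] := by
    rw [← tr_m3, ← tr_m3, h]
  have hq : ∀ q : D ⧸ S, rmap (φ q.out) (hφ q.out A) (hφ q.out B) (tr (ψ A) (ψ B) z) *
      rmap (φ q.out) (hφ q.out A) (hφ q.out B) (tr (ψ A) (ψ B) z) =
      tr (ψ A) (ψ B) (fun j => ψ (d j)) *
        (algebraMap F2 (RR (ψ A) (ψ B)) (φ q.out x) - th (ψ A) (ψ B)) := by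
    intro q
    rw [← map_mul, hzz, map_mul, rmap_tr, tr_X, map_sub, rmap_C, rmap_th]
    have e : (fun j => φ q.out (ψ (d j))) = fun j => ψ (d j) := by
      funext j
      exact hφ _ _
    rw [e]
  rw [map_mul _ (tr A B n0) (tr A B n0), hn0, ← Finset.prod_mul_distrib,
    Finset.prod_congr rfl (fun q _ => hq q),
    Finset.prod_mul_distrib, Finset.prod_const, Finset.card_univ, ← hidx, map_mul, map_pow,
    rmap_tr, map_neg, rmap_mk, hχ, map_prod]
  congr 1
  have h1 : ∀ q : D ⧸ S, AdjoinRoot.mk (ff (ψ A) (ψ B))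
      (Polynomial.X - Polynomial.C (φ q.out x)) =
      (-1) * (algebraMap F2 (RR (ψ A) (ψ B)) (φ q.out x) - th (ψ A) (ψ B)) := by
    intro q
    have h2 : AdjoinRoot.mk (ff (ψ A) (ψ B)) (Polynomial.C (φ q.out x)) =
      algebraMap F2 (RR (ψ A) (ψ B)) (φ q.out x) := rfl
    have h3 : AdjoinRoot.mk (ff (ψ A) (ψ B)) Polynomial.X = th (ψ A) (ψ B) := rfl
    rw [map_sub, h2, h3]
    ring
  rw [Finset.prod_congr rfl (fun q _ => h1 q), Finset.prod_mul_distrib, Finset.prod_const,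
    Finset.card_univ, ← hidx, hodd.neg_one_pow]
  ring

/-- Square roots descend. -/
theorem exists_root (hodd : Odd S.index)
    (hmul : ∀ g h x, φ (g * h) x = φ g (φ h x)) (hφ : ∀ g x, φ g (ψ x) = ψ x)
    (hfix : ∀ x, (∀ g, φ g x = x) → ∃ y, ψ y = x) {u : Fin 3 → F0} (hu : Te_nf A B u ≠ 0)
    {z : Fin 3 → F2} (hz : ∀ s ∈ S, ∀ j, φ s (z j) = z j)
    (h : (fun j => ψ (u j)) = m3 (ψ A) (ψ B) z z) : ∃ w : Fin 3 → F0, u = m3 A B w w := by
  haveI : Fintype (D ⧸ S) := Fintype.ofFinite _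
  obtain ⟨n0, hn0⟩ := rn_norm ψ S φ (A := A) (B := B) hmul hφ hfix hz
  have hidx : S.index = Fintype.card (D ⧸ S) := by
    rw [Subgroup.index, Nat.card_eq_fintype_card]
  have hzz : tr (ψ A) (ψ B) z * tr (ψ A) (ψ B) z = tr (ψ A) (ψ B) (fun j => ψ (u j)) := by
    rw [← tr_m3, ← h]
  have hq : ∀ q : D ⧸ S, rmap (φ q.out) (hφ q.out A) (hφ q.out B) (tr (ψ A) (ψ B) z) *
      rmap (φ q.out) (hφ q.out A) (hφ q.out B) (tr (ψ A) (ψ B) z) =
      tr (ψ A) (ψ B) (fun j => ψ (u j)) := by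
    intro q
    rw [← map_mul, hzz, rmap_tr]
    have e : (fun j => φ q.out (ψ (u j))) = fun j => ψ (u j) := by
      funext j
      exact hφ _ _
    rw [e]
  have hN : tr A B n0 * tr A B n0 = tr A B u ^ S.index := by
    apply rmap_inj ψ (rfl : ψ A = ψ A) (rfl : ψ B = ψ B)
    rw [map_mul, hn0, ← Finset.prod_mul_distrib, Finset.prod_congr rfl (fun q _ => hq q),
      Finset.prod_const, Finset.card_univ, ← hidx, map_pow, rmap_tr]
  obtain ⟨m, hm⟩ := hodd
  obtain ⟨U, hU⟩ := tr_unit A B hu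
  obtain ⟨w, hw⟩ := tr_surj A B (tr A B n0 * ((U⁻¹ : (RR A B)ˣ) : RR A B) ^ m)
  refine ⟨w, ?_⟩
  apply tr_inj A B
  rw [tr_m3, hw]
  have hUU : (U : RR A B) * ((U⁻¹ : (RR A B)ˣ) : RR A B) = 1 := U.mul_inv
  rw [← hU] at hN ⊢
  rw [hm] at hN
  have e1 : (U : RR A B) ^ m * ((U⁻¹ : (RR A B)ˣ) : RR A B) ^ m = 1 := by
    rw [← mul_pow, hUU, one_pow]
  calc (U : RR A B) = ((U : RR A B) ^ m * ((U⁻¹ : (RR A B)ˣ) : RR A B) ^ m) ^ 2 * U := by
        rw [e1, one_pow, one_mul]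
    _ = (U : RR A B) ^ (2 * m + 1) * (((U⁻¹ : (RR A B)ˣ) : RR A B) ^ m) ^ 2 := by ring
    _ = _ := by
        rw [← hN]
        ring

end H38GM
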