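import Pool.Agent.H38.GM.Rs
import Pool.Agent.H38.GM.Rn
import Pool.Agent.H38.GM.Rk
import Pool.Agent.H38.GM.Rc

/-!
ROW GM/Ca (project MP_78d38b_GM, about 150 lines; use the STATEMENTS of Ra, Rk, Rc, Rn, Rs): descent of the local condition in (not necessarily Galois) extensions of odd degree.

`ψ : F0 →+* F2`, a finite group `D` acts on `F2` by `φ`, the fixed elements are the elements of `F0`, `S` is a subgroup of odd index. If the class of `d` (over `F0`) comes from a point `(x, y)` over the fixed field of `S` then it comes from a point over `F0`.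
PROOF. (0) `φ 1 = id`: `φ 1 (φ 1 x) = φ 1 x` and `φ 1` is injective.
(1) `S' := {g | φ g x = x}` (a subgroup, it contains `S`). `y` is fixed by `S'`: for `g ∈ S'`: `(φ g y)^2 = φ g (x^3 + ..) = y^2`, so `φ g y = ± y`; `S'' := {g ∈ S' | φ g y = y}` contains `S`, so its index is odd (`Subgroup.index_dvd_of_le`), and if some `g ∈ S'` had `φ g y = - y ≠ y` then `S'' < S'` has relative index 2: contradiction
(e.g. `g^2 ∈ S''`...: the index of `S''` in `S'` divides the odd index of `S''` (`Subgroup.relIndex_dvd_index_of_normal`-like: `Subgroup.relIndex_mul_index`), and `S''` is the kernel of the sign character of `S'`: `S' = S'' ∪ g S''`; `Subgroup.index_eq_two_iff`).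
(2) a square root over the fixed field of `S'`: `d (x - θ) = z^2` with `z` fixed by `S`. Apply Rn.exists_root to the group `S'` (as a type), its subgroup `S.subgroupOf S'` (odd index: `Subgroup.relIndex`), the fixed field `F' := {t : F2 | ∀ g ∈ S', φ g t = t}` as a subfield of `F2` (`F0 := F'`), `u := d (x - θ)` (coordinates in `F'`; its norm is `(norm d) f(x) = (norm d) y^2 ≠ 0`,
`Te_nf_mul`, as `hnX`, `hnu` in `odd_descent` of Od1.lean) : `z'` fixed by `S'`.
So w.l.o.g. `S = S'`: hS : `φ g x = x → g ∈ S`.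
(3) If `S = ⊤` then `x, y, z j` are in `F0` (hfix) and we are done (injectivity of `ψ`, `Te_m3_map`).
(4) Otherwise: `S.index = 2 k + 1`; `exists_PQ`, `exists_chi`, `χ ∣ P^2 - f Q^2` by chi_dvd: for all `g`: `P(x_g) = - Q(x_g) y_g`, `P(x_g)^2 - f(x_g) Q(x_g)^2 = Q(x_g)^2 (y_g^2 - f(x_g)) = 0` (`x_g = φ g x`); chi_cop: `f(x_g) = y_g^2 ≠ 0`; chi_noroot; exists_N; core.
-/

set_option autoImplicit false
set_option linter.unusedSectionVars false
open scoped Classical

open WeierstrassCurve H76PP H30ZO H73P2 Pool.Agent.H10 H30OD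

namespace H38GM

variable {F0 F2 : Type} [Field F0] [CharZero F0] [Field F2] [CharZero F2] (ψ : F0 →+* F2)
  {A B : F0}

/-- The fixed field of a subgroup. -/
def fixF {D : Type} [Group D] (T : Subgroup D) (φ : D → (F2 →+* F2)) : Subfield F2 where
  carrier := {t | ∀ g ∈ T, φ g t = t}
  mul_mem' := by
    intro a b ha hb g hg
    rw [map_mul, ha g hg, hb g hg]
  one_mem' := fun g _ => map_one _
  add_mem' := by
    intro a b ha hb g hg
    rw [map_add, ha g hg, hb g hg]
  zero_mem' := fun g _ => map_zero _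
  neg_mem' := by
    intro a ha g hg
    rw [map_neg, ha g hg]
  inv_mem' := by
    intro a ha g hg
    rw [map_inv₀, ha g hg]

lemma mem_fixF {D : Type} [Group D] {T : Subgroup D} {φ : D → (F2 →+* F2)} {t : F2} :
    t ∈ fixF T φ ↔ ∀ g ∈ T, φ g t = t := Iff.rfl

/-- The stabiliser of an element. -/
def stab {D : Type} [Group D] (φ : D → (F2 →+* F2)) (h1 : ∀ x, φ 1 x = x)
    (hmul : ∀ g h x, φ (g * h) x = φ g (φ h x)) (x : F2) : Subgroup D where
  carrier := {g | φ g x = x}
  mul_mem' := by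
    intro a b ha hb
    change φ (a * b) x = x
    rw [hmul, show φ b x = x from hb, show φ a x = x from ha]
  one_mem' := h1 x
  inv_mem' := by
    intro a ha
    change φ a⁻¹ x = x
    have h2 : φ a x = x := ha
    have h3 : φ a⁻¹ (φ a x) = x := by rw [← hmul, inv_mul_cancel, h1]
    rwa [h2] at h3

lemma mem_stab {D : Type} [Group D] {φ : D → (F2 →+* F2)} {h1 : ∀ x, φ 1 x = x}
    {hmul : ∀ g h x, φ (g * h) x = φ g (φ h x)} {x : F2} {g : D} :
    g ∈ stab φ h1 hmul x ↔ φ g x = x := Iff.rfl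

/-- An element whose square is fixed, and which is fixed by a subgroup of odd index, is fixed. -/
lemma sq_fixed {D : Type} [Group D] [Finite D] {S T : Subgroup D} (hST : S ≤ T)
    (hodd : Odd S.index) {φ : D → (F2 →+* F2)} (h1 : ∀ x, φ 1 x = x)
    (hmul : ∀ g h x, φ (g * h) x = φ g (φ h x)) {y : F2} (hy0 : y ≠ 0) (hy : ∀ g ∈ S, φ g y = y)
    (hsq : ∀ g ∈ T, φ g y = y ∨ φ g y = -y) (g : D) (hg : g ∈ T) : φ g y = y := by
  by_contra hne
  have hg' : φ g y = -y := (hsq g hg).resolve_left hne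
  have hyy : y ≠ -y := by
    intro h
    apply hy0
    have : (2 : F2) * y = 0 := by linear_combination h
    exact (mul_eq_zero.1 this).resolve_left two_ne_zero
  have hi : ((stab φ h1 hmul y).subgroupOf T).index = 2 := by
    rw [Subgroup.index_eq_two_iff]
    refine ⟨⟨g, hg⟩, fun b => ?_⟩
    rw [Subgroup.mem_subgroupOf, Subgroup.mem_subgroupOf, mem_stab, mem_stab]
    have e : φ ((b * ⟨g, hg⟩ : T) : D) y = -(φ (b : D) y) := by
      rw [Subgroup.coe_mul, hmul]
      change φ (b : D) (φ g y) = _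
      rw [hg', map_neg]
    rw [e]
    rcases hsq b b.2 with h | h
    · right
      refine ⟨h, ?_⟩
      rw [h]
      exact fun h' => hyy h'.symm
    · left
      refine ⟨?_, ?_⟩
      · rw [h, neg_neg]
      · rw [h]
        exact fun h' => hyy h'.symm
  have h3 : S ≤ T ⊓ stab φ h1 hmul y := le_inf hST fun s hs => hy s hs
  have h4 : (T ⊓ stab φ h1 hmul y).index ∣ S.index := Subgroup.index_dvd_of_le h3
  have h5 : (T ⊓ stab φ h1 hmul y).relIndex T * T.index = (T ⊓ stab φ h1 hmul y).index :=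
    Subgroup.relIndex_mul_index inf_le_left
  have h6 : (T ⊓ stab φ h1 hmul y).relIndex T = 2 := by
    rw [inf_comm, Subgroup.inf_relIndex_right]
    exact hi
  rw [h6] at h5
  have h7 : 2 ∣ S.index := (Dvd.intro _ h5).trans h4
  exact (Nat.not_even_iff_odd.2 hodd) (even_iff_two_dvd.2 h7)

/-- **Odd descent**, abstract form, for a subgroup of odd index. -/
theorem odd_descentS (hd : 4 * A ^ 3 + 27 * B ^ 2 ≠ 0) (hinf : Infinite (Pc A B))
    {D : Type} [Group D] [Finite D] (S : Subgroup D) (hodd : Odd S.index) (φ : D → (F2 →+* F2))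
    (hmul : ∀ g h x, φ (g * h) x = φ g (φ h x)) (hφ : ∀ g x, φ g (ψ x) = ψ x)
    (hfix : ∀ x, (∀ g, φ g x = x) → ∃ y, ψ y = x) {d : Fin 3 → F0} (hnd : Te_nf A B d ≠ 0)
    (h : ∃ (x y : F2) (z : Fin 3 → F2), (∀ s ∈ S, φ s x = x ∧ φ s y = y ∧ ∀ j, φ s (z j) = z j) ∧
      y ≠ 0 ∧ y ^ 2 = x ^ 3 + ψ A * x + ψ B ∧
      m3 (ψ A) (ψ B) (fun j => ψ (d j)) ![x, -1, 0] = m3 (ψ A) (ψ B) z z) :
    ∃ (x y : F0) (z : Fin 3 → F0), y ≠ 0 ∧ y ^ 2 = x ^ 3 + A * x + B ∧
      m3 A B d ![x, -1, 0] = m3 A B z z := by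
  have hψ : Function.Injective ψ := ψ.injective
  have h1 : ∀ x, φ 1 x = x := by
    intro x
    apply (φ 1).injective
    rw [← hmul, one_mul]
  obtain ⟨x, y, z, hs, hy, he, hz⟩ := h
  set T := stab φ h1 hmul x with hT
  have hST : S ≤ T := fun s hs' => (hs s hs').1
  have hx : ∀ g ∈ T, φ g x = x := fun g hg => hg
  have hyT : ∀ g ∈ T, φ g y = y := by
    refine fun g hg => sq_fixed hST hodd h1 hmul hy (fun g hg => (hs g hg).2.1) ?_ g hg
    intro g hg
    rw [← sq_eq_sq_iff_eq_or_eq_neg, ← map_pow, he, map_add, map_add, map_mul, map_pow, hx g hg,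
      hφ, hφ]
  have hoddT : Odd T.index := by
    obtain ⟨c, hc⟩ := Subgroup.index_dvd_of_le hST
    rw [hc] at hodd
    exact (Nat.odd_mul.1 hodd).1
  have hoddST : Odd (S.subgroupOf T).index := by
    have h2 : S.relIndex T * T.index = S.index := Subgroup.relIndex_mul_index hST
    rw [← h2] at hodd
    exact (Nat.odd_mul.1 hodd).1
  -- the square root
  obtain ⟨z', hz', hzz⟩ : ∃ z' : Fin 3 → F2, (∀ g ∈ T, ∀ j, φ g (z' j) = z' j) ∧
      m3 (ψ A) (ψ B) (fun j => ψ (d j)) ![x, -1, 0] = m3 (ψ A) (ψ B) z' z' := by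
    have hF : ∀ t : F0, ψ t ∈ fixF T φ := fun t g _ => hφ g t
    have hxF : x ∈ fixF T φ := hx
    set A' : fixF T φ := ⟨ψ A, hF A⟩ with hA'
    set B' : fixF T φ := ⟨ψ B, hF B⟩ with hB'
    set ι : fixF T φ →+* F2 := (fixF T φ).subtype with hι
    set d' : Fin 3 → fixF T φ := fun j => ⟨ψ (d j), hF (d j)⟩ with hd'
    set x' : fixF T φ := ⟨x, hxF⟩ with hx'
    have hιA : ι A' = ψ A := rfl
    have hιB : ι B' = ψ B := rfl
    have hιd : (fun j => ι (d' j)) = fun j => ψ (d j) := rfl
    have hιx : (fun j => ι ((![x', -1, 0] : Fin 3 → fixF T φ) j)) = ![x, -1, 0] := by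
      funext j
      fin_cases j
      · rfl
      · change ι (-1) = -1
        rw [map_neg, map_one]
      · change ι 0 = 0
        rw [map_zero]
    have hιm : ∀ a b : Fin 3 → fixF T φ, (fun j => ι (m3 A' B' a b j)) =
        m3 (ψ A) (ψ B) (fun j => ι (a j)) (fun j => ι (b j)) := by
      intro a b
      funext j
      rw [← hιA, ← hιB, Te_m3_map]
    have hnu : Te_nf A' B' (m3 A' B' d' ![x', -1, 0]) ≠ 0 := by
      rw [Te_nf_mul]
      refine mul_ne_zero ?_ ?_
      · intro h
        have h2 := congrArg ι h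
        rw [← Te_nf_map, map_zero, hιA, hιB] at h2
        have h3 : Te_nf (ψ A) (ψ B) (fun j => ψ (d j)) = 0 := h2
        rw [Te_nf_map, map_eq_zero] at h3
        exact hnd h3
      · intro h
        have h2 := congrArg ι h
        rw [← Te_nf_map, map_zero, hιx, hιA, hιB] at h2
        have h3 : Te_nf (ψ A) (ψ B) ![x, -1, 0] = y ^ 2 := by
          rw [he]
          simp only [Te_nf, Matrix.cons_val_zero, Matrix.cons_val_one, Matrix.cons_val_two,
            Matrix.head_cons, Matrix.tail_cons]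
          ring
        rw [h3] at h2
        exact pow_ne_zero _ hy h2
    obtain ⟨w, hw⟩ := exists_root ι (S.subgroupOf T) (fun g : T => φ (g : D)) hoddST
      (fun g h x => hmul g h x) (fun g t => t.2 g g.2)
      (fun t ht => ⟨⟨t, fun g hg => ht ⟨g, hg⟩⟩, rfl⟩) (A := A') (B := B')
      (u := m3 A' B' d' ![x', -1, 0]) hnu (z := z)
      (fun s hs' j => (hs s (Subgroup.mem_subgroupOf.1 hs')).2.2 j) (by
        rw [hιm, hιd, hιx, hιA, hιB]
        exact hz)
    refine ⟨fun j => ι (w j), fun g hg j => (w j).2 g hg, ?_⟩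
    rw [← hιm w w, ← hw, hιm, hιd, hιx]
  clear hz
  have hev : ∀ g, (φ g y) ^ 2 = (φ g x) ^ 3 + ψ A * φ g x + ψ B := by
    intro g
    rw [← map_pow, he, map_add, map_add, map_mul, map_pow, hφ, hφ]
  by_cases htop : T = ⊤
  · have hall : ∀ g, g ∈ T := fun g => htop ▸ Subgroup.mem_top g
    obtain ⟨x0, hx0⟩ := hfix x fun g => hx g (hall g)
    obtain ⟨y0, hy0⟩ := hfix y fun g => hyT g (hall g)
    have hz0 : ∀ j, ∃ t, ψ t = z' j := fun j => hfix _ fun g => hz' g (hall g) j
    choose z0 hz0 using hz0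
    refine ⟨x0, y0, z0, ?_, ?_, ?_⟩
    · rintro rfl
      rw [map_zero] at hy0
      exact hy hy0.symm
    · apply hψ
      rw [map_add, map_add, map_mul, map_pow, map_pow, hx0, hy0]
      exact he
    · funext j
      apply hψ
      rw [← Te_m3_map, ← Te_m3_map]
      have e1 : (fun j => ψ ((![x0, -1, 0] : Fin 3 → F0) j)) = ![x, -1, 0] := by
        funext j
        fin_cases j
        · exact hx0
        · change ψ (-1) = -1
          rw [map_neg, map_one]
        · change ψ 0 = 0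
          rw [map_zero]
      have e2 : (fun j => ψ (z0 j)) = z' := funext hz0
      rw [e1, e2, hzz]
  · have : Fintype (D ⧸ T) := Fintype.ofFinite _
    obtain ⟨k, hk⟩ := hoddT
    obtain ⟨P, Q, hPQ, hP, hQ, hv⟩ := exists_PQ ψ T φ hmul hφ hfix hx hyT hk
    obtain ⟨χ, hm, hn, hχ⟩ := exists_chi ψ T φ hmul hφ hfix hx
    have hff : ∀ g, (ff A B).eval₂ ψ (φ g x) = (φ g y) ^ 2 := by
      intro g
      rw [hev g, ff, Polynomial.eval₂_add, Polynomial.eval₂_add, Polynomial.eval₂_mul,
        Polynomial.eval₂_pow, Polynomial.eval₂_X, Polynomial.eval₂_C, Polynomial.eval₂_C]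
    have hno := chi_noroot ψ T φ hmul h1 hφ (fun g hg => hg) hχ htop
    have hcop : IsCoprime χ (ff A B) := by
      refine chi_cop ψ T φ hχ fun g => ?_
      rw [hff g]
      exact pow_ne_zero _ ((map_ne_zero (φ g)).2 hy)
    have hdvd : χ ∣ P ^ 2 - ff A B * Q ^ 2 := by
      refine chi_dvd ψ T φ hmul h1 (fun g hg => hg) hχ fun g => ?_
      rw [Polynomial.eval₂_sub, Polynomial.eval₂_mul, Polynomial.eval₂_pow, Polynomial.eval₂_pow,
        hff g]
      have h2 := hv g
      linear_combination (P.eval₂ ψ (φ g x) - Q.eval₂ ψ (φ g x) * φ g y) * h2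
    obtain ⟨w, hw⟩ := exists_N ψ T φ ⟨k, hk⟩ hmul hφ hfix hx hz' hzz hχ
    rw [hk] at hn hw
    exact core hd hinf hm hn hno hcop hPQ hP hQ hdvd hnd hw

end H38GM
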