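import Pool.Agent.H38.GM.Cs

/-!
ROW GM/Cb (project MP_78d38b_GM, about 130 lines): a place of `N` whose decomposition group contains the elements which fix `M` as a subgroup of odd index.

`N / K` is Galois and contains `M`, `[M : K]` is odd, `M / K` is not Galois. `Dec K W` = decomposition group (Pool/Agent/H30/OD/Od2.lean), `stb K M W` in Cs.lean.
PROOF. `G = N ≃ₐ[K] N`, `HM = {g | g fixes M}` has odd index `[M : K]` (fundamental theorem: `IsGalois.card_aut_eq_finrank` for `N / K` and `N / M`, `Subgroup.card_mul_index`; `HM ≃ (N ≃ₐ[M] N)`; `Module.finrank_mul_finrank K M N`). Let `W0` be a place of `N` above `v` (`H76PP.exists_above`).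
`Dec K W0` acts on `G ⧸ HM` (odd cardinality) by left multiplication; the cardinality is the sum of the sizes of the orbits (`MulAction.selfEquivSigmaOrbits`, `MulAction.card_eq_sum_card_group_div_card_stabilizer`), so some orbit has odd size: the stabiliser `{d ∈ Dec K W0 | g⁻¹ d g ∈ HM}` of some `g HM` has odd index in `Dec K W0`.
(Direct way without actions: suppose for all `g` the index of `T_g := {d ∈ Dec K W0 | g⁻¹ d g ∈ HM}` in `Dec K W0` is even; the double cosets `Dec g HM` partition `G`, `|Dec g HM| / |HM| = [Dec : T_g]` would be even.)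
Let `W` be the place with `W.valuation N y = W0.valuation N (g y)` for all `y` (`Pool.Agent.H10.exists_conj g W0`, check the direction; it lies above `v`: use `H38..dn_same`-like or `exists_conj`'s second conclusion), then `Dec K W = g⁻¹ (Dec K W0) g` and `stb K M W` corresponds to the stabiliser under the isomorphism `d ↦ g⁻¹ d g`: odd index
(e.g. `Subgroup.index_comap_of_surjective`, or count: `Nat.card (Dec K W) = Nat.card (Dec K W0)`, `Nat.card (stb ..) = Nat.card (T_g)` and `Subgroup.card_mul_index`).
-/

set_option autoImplicit false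
set_option linter.unusedSectionVars false
open scoped Classical

open NumberField IsDedekindDomain WeierstrassCurve H76PP H30ZO H73P2 Pool.Agent.H10 H30OD

namespace H38GM

/-- A finite group acting on a finite set of odd cardinality has an orbit of odd size. -/
theorem Cb_orbit {D X : Type} [Group D] [Finite D] [MulAction D X] [Finite X]
    (hX : Odd (Nat.card X)) : ∃ x : X, Odd (MulAction.stabilizer D x).index := by
  have hD : Fintype D := Fintype.ofFinite D
  have hX2 : Fintype X := Fintype.ofFinite X
  have hO : Fintype (Quotient (MulAction.orbitRel D X)) := Fintype.ofFinite _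
  have hS : ∀ x : X, Fintype (MulAction.stabilizer D x) := fun x => Fintype.ofFinite _
  by_contra hcon
  push Not at hcon
  have h1 := MulAction.card_eq_sum_card_group_div_card_stabilizer D X
  have h2 : Even (Fintype.card X) := by
    rw [h1]
    apply Finset.even_sum
    intro ω _
    have h3 : Fintype.card D / Fintype.card (MulAction.stabilizer D ω.out) =
        (MulAction.stabilizer D ω.out).index := by
      have h4 := Subgroup.card_mul_index (MulAction.stabilizer D ω.out)
      rw [Nat.card_eq_fintype_card, Nat.card_eq_fintype_card] at h4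
      rw [← h4]
      exact Nat.mul_div_cancel_left _ Fintype.card_pos
    rw [h3]
    exact Nat.not_odd_iff_even.1 (hcon ω.out)
  rw [Nat.card_eq_fintype_card] at hX
  exact Nat.not_odd_iff_even.2 h2 hX

variable {K M N : Type} [Field K] [NumberField K] [Field M] [NumberField M] [Field N]
  [NumberField N] [Algebra K M] [Algebra M N] [Algebra K N] [IsScalarTower K M N]

variable (K M N) in
/-- The automorphisms of `N / K` which fix `M`. -/
def Cb_fix : Subgroup (N ≃ₐ[K] N) where
  carrier := {g | ∀ x : M, g (algebraMap M N x) = algebraMap M N x}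
  mul_mem' := by
    intro g h hg hh x
    change g (h (algebraMap M N x)) = _
    rw [hh x, hg x]
  one_mem' := fun x => rfl
  inv_mem' := by
    intro g hg x
    have h1 := hg x
    have h2 : g⁻¹ (g (algebraMap M N x)) = algebraMap M N x := by
      rw [← AlgEquiv.mul_apply, inv_mul_cancel, AlgEquiv.one_apply]
    rw [h1] at h2
    exact h2

theorem Cb_index [IsGalois K N] : (Cb_fix K M N).index = Module.finrank K M := by
  have h1 : Cb_fix K M N = ((IsScalarTower.toAlgHom K M N).fieldRange).fixingSubgroup := by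
    ext g
    rw [IntermediateField.mem_fixingSubgroup_iff]
    constructor
    · rintro h _ ⟨x, rfl⟩
      exact h x
    · intro h x
      exact h _ ⟨x, rfl⟩
  have _ : FiniteDimensional K N := Module.Finite.of_restrictScalars_finite ℚ K N
  rw [h1, ← IntermediateField.finrank_eq_fixingSubgroup_index]
  exact (AlgEquiv.ofInjectiveField (IsScalarTower.toAlgHom K M N)).toLinearEquiv.finrank_eq.symm

theorem Cb_conj_mem {g : N ≃ₐ[K] N} {W W0 : HeightOneSpectrum (𝓞 N)}
    (hW : ∀ y : N, W0.valuation N (g y) = W.valuation N y) {d : N ≃ₐ[K] N}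
    (hd : d ∈ Dec K W0) : g⁻¹ * d * g ∈ Dec K W := by
  rw [mem_Dec] at hd ⊢
  intro y
  rw [← hW, ← hW]
  have h1 : g ((g⁻¹ * d * g) y) = d (g y) := by
    rw [← AlgEquiv.mul_apply, ← AlgEquiv.mul_apply]
    congr 1
    group
  rw [h1]
  exact hd _

theorem Cb_conj_mem' {g : N ≃ₐ[K] N} {W W0 : HeightOneSpectrum (𝓞 N)}
    (hW : ∀ y : N, W0.valuation N (g y) = W.valuation N y) {e : N ≃ₐ[K] N}
    (he : e ∈ Dec K W) : g * e * g⁻¹ ∈ Dec K W0 := by
  rw [mem_Dec] at he ⊢
  intro y
  have h1 : (g * e * g⁻¹) y = g (e (g⁻¹ y)) := rfl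
  rw [h1, hW, he, ← hW]
  congr 1
  rw [← AlgEquiv.mul_apply, mul_inv_cancel, AlgEquiv.one_apply]

theorem exists_W [IsGalois K N] (hodd : Odd (Module.finrank K M)) (v : HeightOneSpectrum (𝓞 K)) :
    ∃ W : HeightOneSpectrum (𝓞 N), dn K W = v ∧ Odd (stb K M W).index := by
  have _ : FiniteDimensional K N := Module.Finite.of_restrictScalars_finite ℚ K N
  have _ : Finite (N ≃ₐ[K] N) := inferInstance
  obtain ⟨W0, hW0⟩ := exists_above (L := N) v
  have hcard : Odd (Nat.card ((N ≃ₐ[K] N) ⧸ Cb_fix K M N)) := by
    change Odd (Cb_fix K M N).index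
    rw [Cb_index]
    exact hodd
  obtain ⟨x, hx⟩ := Cb_orbit (D := Dec K W0) hcard
  obtain ⟨g, rfl⟩ := QuotientGroup.mk_surjective x
  obtain ⟨W, hW, hW2⟩ := Pool.Agent.H10.exists_conj g W0
  refine ⟨W, ?_, ?_⟩
  · rw [← hW0]
    apply HeightOneSpectrum.ext
    ext y
    exact hW2 y
  · obtain ⟨f, hf⟩ : ∃ f : Dec K W0 →* Dec K W, ∀ d, (f d).1 = g⁻¹ * d.1 * g := by
      refine ⟨{ toFun := fun d => ⟨g⁻¹ * d.1 * g, Cb_conj_mem hW d.2⟩
                map_one' := ?_
                map_mul' := ?_ }, fun d => rfl⟩
      · apply Subtype.ext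
        change g⁻¹ * 1 * g = 1
        group
      · intro a b
        apply Subtype.ext
        change g⁻¹ * (a.1 * b.1) * g = g⁻¹ * a.1 * g * (g⁻¹ * b.1 * g)
        group
    have hsurj : Function.Surjective f := by
      intro e
      refine ⟨⟨g * e.1 * g⁻¹, Cb_conj_mem' hW e.2⟩, ?_⟩
      apply Subtype.ext
      rw [hf]
      change g⁻¹ * (g * e.1 * g⁻¹) * g = e.1
      group
    have hcomap : (stb K M W).comap f =
        MulAction.stabilizer (Dec K W0) (QuotientGroup.mk g : (N ≃ₐ[K] N) ⧸ Cb_fix K M N) := by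
      ext d
      rw [Subgroup.mem_comap, MulAction.mem_stabilizer_iff]
      have h1 : f d ∈ stb K M W ↔ g⁻¹ * d.1 * g ∈ Cb_fix K M N := by
        change (∀ x : M, (f d).1 (algebraMap M N x) = algebraMap M N x) ↔ _
        rw [hf]
        exact Iff.rfl
      have h2 : d • (QuotientGroup.mk g : (N ≃ₐ[K] N) ⧸ Cb_fix K M N) =
          QuotientGroup.mk (d.1 * g) := rfl
      rw [h1, h2, eq_comm, QuotientGroup.eq, mul_assoc]
    rw [← Subgroup.index_comap_of_surjective (stb K M W) hsurj, hcomap]
    exact hx

end H38GM
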