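import Pool.Agent.H38.GM.Cs
import Pool.Agent.H38.GM.Ca

/-!
ROW GM/Cc (project MP_78d38b_GM, about 90 lines; use the STATEMENT of Ca `odd_descentS`): local descent at the finite places in an extension `M / K`, not Galois.

`N / K` is Galois and contains `M`. `u := dn M W`, `ψ := (over_dn (K := K) W).map : K_v → N_W`, `i := (over_dn (K := M) W).map : M_u → N_W`. `LC` at `u` gives `(x, y, z)` over `M_u`; their images under `i` are fixed by `act W g`, `g ∈ stb K M W`
(`act W g ∘ i` and `i` are continuous and agree on `M` (`act_coe`, `map_algebraMap`): `act_ext` as in the proof of `act_map` in Pool/Agent/H30/OD/Od2.lean, both maps on the completion of `M`). Then `odd_descentS` with `D = Dec K W`, `S = stb K M W`, `φ = act W`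
(`LC_down` and `LC_odd` at the end of Od2.lean, Od1.lean are the model: `inf_fin`, `act_mul`, `act_map`, `act_fix`, `Te_nf_map`). `i ∘ (M → M_u) ∘ (K → M) = ψ ∘ (K → K_v)` on `K`.
-/

set_option autoImplicit false
set_option linter.unusedSectionVars false
open scoped Classical

open NumberField IsDedekindDomain WeierstrassCurve H76PP H30ZO H73P2 Pool.Agent.H10 H30OD

namespace H38GM

variable {K M N : Type} [Field K] [NumberField K] [Field M] [NumberField M] [Field N]
  [NumberField N] [Algebra K M] [Algebra M N] [Algebra K N] [IsScalarTower K M N]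

theorem Cc_fix {W : HeightOneSpectrum (𝓞 N)} {g : Dec K W} (hg : g ∈ stb K M W)
    (x : (dn M W).adicCompletion M) :
    act W g ((H36CY.over_dn (K := M) W).map x) = (H36CY.over_dn (K := M) W).map x := by
  have h := H36CY.act_ext (dn M W) (f := fun x => act W g ((H36CY.over_dn (K := M) W).map x))
    (f' := fun x => (H36CY.over_dn (K := M) W).map x)
    ((act_cont K W g).comp (H36CY.over_dn (K := M) W).continuous_map)
    (H36CY.over_dn (K := M) W).continuous_map
    (fun y => by
      change act W g ((H36CY.over_dn (K := M) W).map _) = (H36CY.over_dn (K := M) W).map _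
      rw [(H36CY.over_dn (K := M) W).map_algebraMap, act_coe, hg y])
  exact congrFun h x

theorem Cc_comp {W : HeightOneSpectrum (𝓞 N)} (x : K) :
    (H36CY.over_dn (K := M) W).map (algebraMap M ((dn M W).adicCompletion M) (algebraMap K M x)) =
      (H36CY.over_dn (K := K) W).map (algebraMap K ((dn K W).adicCompletion K) x) := by
  rw [(H36CY.over_dn (K := M) W).map_algebraMap, (H36CY.over_dn (K := K) W).map_algebraMap,
    ← IsScalarTower.algebraMap_apply K M N]

theorem LC_downS [IsGalois K N] {a b : K} (hD : 4 * a ^ 3 + 27 * b ^ 2 ≠ 0) {d : Fin 3 → K}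
    (hnd : Te_nf a b d ≠ 0) {W : HeightOneSpectrum (𝓞 N)} (hW : Odd (stb K M W).index)
    (h : LC ((algebraMap M ((dn M W).adicCompletion M)).comp (algebraMap K M)) a b d) :
    LC (algebraMap K ((dn K W).adicCompletion K)) a b d := by
  have hfd : FiniteDimensional K N := Module.Finite.of_restrictScalars_finite ℚ K N
  have hch : CharZero (W.adicCompletion N) := H36CY.char_zero W
  have hch' : CharZero ((dn K W).adicCompletion K) := H36CY.char_zero (dn K W)
  obtain ⟨x, y, z, hy, he, hz⟩ := h
  obtain ⟨i, hi⟩ : ∃ i, i = (H36CY.over_dn (K := M) W).map := ⟨_, rfl⟩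
  obtain ⟨j, hj⟩ : ∃ j, j = (algebraMap M ((dn M W).adicCompletion M)).comp (algebraMap K M) :=
    ⟨_, rfl⟩
  have hij : ∀ t : K, i (j t) =
      (H36CY.over_dn (K := K) W).map (algebraMap K ((dn K W).adicCompletion K) t) := by
    intro t
    rw [hi, hj]
    exact Cc_comp t
  rw [← hj] at he hz
  refine odd_descentS (F0 := (dn K W).adicCompletion K) (F2 := W.adicCompletion N)
    (A := algebraMap K ((dn K W).adicCompletion K) a)
    (B := algebraMap K ((dn K W).adicCompletion K) b)
    (d := fun l => algebraMap K ((dn K W).adicCompletion K) (d l))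
    (H36CY.over_dn (K := K) W).map ?_ (H24PD.inf_fin (dn K W) _ _) (stb K M W) hW (act W)
    (fun g h x => act_mul K W g h x) (fun g x => act_map K W g x)
    (fun x hx => act_fix inferInstance hx) ?_ ?_
  · intro e
    apply hD
    apply (algebraMap K ((dn K W).adicCompletion K)).injective
    rw [map_zero, map_add, map_mul, map_mul, map_pow, map_pow, map_ofNat, map_ofNat]
    exact e
  · rw [Te_nf_map]
    exact (map_ne_zero _).2 hnd
  · refine ⟨i x, i y, fun l => i (z l), fun s hs => ⟨?_, ?_, fun l => ?_⟩, ?_, ?_, ?_⟩
    · rw [hi]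
      exact Cc_fix hs x
    · rw [hi]
      exact Cc_fix hs y
    · rw [hi]
      exact Cc_fix hs (z l)
    · exact (map_ne_zero i).2 hy
    · rw [← map_pow, he, map_add, map_add, map_mul, map_pow, hij, hij]
    · rw [← hij, ← hij]
      funext l
      have h1 := congrArg i (congrFun hz l)
      rw [← Te_m3_map, ← Te_m3_map] at h1
      have e1 : (fun l => (H36CY.over_dn (K := K) W).map
          (algebraMap K ((dn K W).adicCompletion K) (d l))) = fun l => i (j (d l)) := by
        funext l
        rw [hij]
      have e2 : (![i x, -1, 0] : Fin 3 → W.adicCompletion N) = fun l => i (![x, -1, 0] l) := by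
        funext l
        fin_cases l
        · rfl
        · change (-1 : W.adicCompletion N) = i (-1)
          rw [map_neg, map_one]
        · exact (map_zero i).symm
      rw [e1, e2]
      exact h1

end H38GM
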