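import Pool.Agent.H30.OD.Od3

/-!
ROW GM/Cd (project MP_78d38b_GM, about 70 lines): real embeddings extend in extensions of odd degree (not Galois).

PROOF. Make `ℂ` a `K`-algebra by `s`. There are `[M : K]` many `K`-homomorphisms `M → ℂ` (`AlgHom.card K M ℂ`), an odd number; `τ ↦ conj ∘ τ` is an involution on them, so it fixes one (`Equiv.Perm.exists_fixed_point_of_prime` with `p = 2`, or `Finset.card_involution`..): `τ` with real values. For the construction of the real embedding from
`conj ∘ τ = τ` see `exists_real` in Pool/Agent/H30/OD/Od3.lean.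
-/

set_option autoImplicit false
set_option linter.unusedSectionVars false
open scoped Classical

open NumberField

namespace H38GM

variable {K M : Type} [Field K] [NumberField K] [Field M] [NumberField M] [Algebra K M]

theorem exists_realM (hodd : Odd (Module.finrank K M)) (s : K →+* ℝ) :
    ∃ s' : M →+* ℝ, ∀ x : K, s' (algebraMap K M x) = s x := by
  have hfd : FiniteDimensional K M := Module.Finite.of_restrictScalars_finite ℚ K M
  letI : Algebra K ℂ := ((algebraMap ℝ ℂ).comp s).toAlgebra
  have halg : ∀ x : K, algebraMap K ℂ x = ((s x : ℝ) : ℂ) := fun x => rfl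
  -- complex conjugation on the `K`-homomorphisms `M → ℂ`
  let c : (M →ₐ[K] ℂ) → (M →ₐ[K] ℂ) := fun τ =>
    { ((starRingEnd ℂ).comp (τ : M →+* ℂ)) with
      commutes' := fun x => by
        change (starRingEnd ℂ) (τ (algebraMap K M x)) = _
        rw [τ.commutes, halg, Complex.conj_ofReal] }
  have hc : ∀ τ x, c τ x = (starRingEnd ℂ) (τ x) := fun τ x => rfl
  have hcc : ∀ τ, c (c τ) = τ := by
    intro τ
    apply AlgHom.ext
    intro x
    rw [hc, hc, Complex.conj_conj]
  let σ : Equiv.Perm (M →ₐ[K] ℂ) := ⟨c, c, hcc, hcc⟩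
  have hσ : σ ^ 2 ^ 1 = 1 := by
    rw [pow_one, sq]
    apply Equiv.ext
    intro τ
    exact hcc τ
  have hcard : ¬ 2 ∣ Fintype.card (M →ₐ[K] ℂ) := by
    rw [AlgHom.card K M ℂ]
    intro h
    exact (Nat.not_even_iff_odd.2 hodd) (even_iff_two_dvd.2 h)
  obtain ⟨τ, hτ⟩ := Equiv.Perm.exists_fixed_point_of_prime (p := 2) (n := 1) hcard hσ
  have hreal : ∀ x, (starRingEnd ℂ) (τ x) = τ x := by
    intro x
    have h1 : c τ = τ := hτ
    rw [← hc, h1]
  have hre : ∀ x, (((τ x).re : ℝ) : ℂ) = τ x := fun x => Complex.conj_eq_iff_re.1 (hreal x)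
  refine ⟨{ toFun := fun x => (τ x).re
            map_one' := by rw [map_one, Complex.one_re]
            map_mul' := fun x y => by
              rw [map_mul, ← hre x, ← hre y, ← Complex.ofReal_mul, Complex.ofReal_re,
                Complex.ofReal_re, Complex.ofReal_re]
            map_zero' := by rw [map_zero, Complex.zero_re]
            map_add' := fun x y => by rw [map_add, Complex.add_re] }, fun x => ?_⟩
  change (τ (algebraMap K M x)).re = s x
  rw [τ.commutes, halg, Complex.ofReal_re]

end H38GM
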