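import Pool.Agent.H30.OD.Od2

/-!
Definition for the rows GM/Cb, Cc (no row): the elements of the decomposition group which fix `M`.
-/

set_option autoImplicit false
set_option linter.unusedSectionVars false
open scoped Classical

open NumberField IsDedekindDomain WeierstrassCurve H76PP H30ZO H73P2 Pool.Agent.H10 H30OD

namespace H38GM

variable {K M N : Type} [Field K] [NumberField K] [Field M] [NumberField M] [Field N]
  [NumberField N] [Algebra K M] [Algebra M N] [Algebra K N] [IsScalarTower K M N]

variable (K M) in
/-- The elements of the decomposition group which fix `M`. -/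
def stb (W : HeightOneSpectrum (𝓞 N)) : Subgroup (Dec K W) where
  carrier := {g | ∀ x : M, g.1 (algebraMap M N x) = algebraMap M N x}
  mul_mem' := by
    intro g h hg hh x
    change g.1 (h.1 (algebraMap M N x)) = _
    rw [hh x, hg x]
  one_mem' := fun x => rfl
  inv_mem' := by
    intro g hg x
    have h1 := hg x
    have h2 : g.1⁻¹ (g.1 (algebraMap M N x)) = algebraMap M N x := by
      rw [← AlgEquiv.mul_apply, inv_mul_cancel, AlgEquiv.one_apply]
    rw [h1] at h2
    exact h2

end H38GM
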