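import Pool.Agent.H76.GM.Df
import Pool.Agent.H30.OD.Od3

/-!
ROW GM/Cu (project MP_78d38b_GM, about 90 lines): restriction from `L0 = K(θ0)` to `LM = M(θ0)`.

res_inj: `y = sc x`, `x ∈ L0` (`sc_surj`). `algebraMap x` is a square in `LM` (`scm_sc`, `sc_eq_zero`), `[LM : L0]` is odd: `finrank K L0 = 3` and `finrank M LM = 3` (`Cub.finrank`: `S0.cub.finrank`, `U.cub.finrank`), `finrank K M` odd, `finrank K M * finrank M LM = finrank K LM = finrank K L0 * finrank L0 LM` (`K → LM` both ways: `U.tower`, make `Algebra K LM` locally), so `x` is a square by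
`H30OD.sq_down` (Od3.lean) for `LM / L0` (not Galois needed), `sc_eq_zero`.
V_up: unpack `Wc` (Pool/Agent/H30/ZO/Df.lean): `Wc i A B θ c ↔ ∃ d, ev θ d ≠ 0 ∧ c = sc (ev θ d) ∧ LC i A B d` (see the first lines of `kum3` in Pool/Agent/H30/OR/Ta.lean). Norm condition: `UpN.norm` (H26/OD/Nb.lean), `H30ZO.mem_HH`. Finite places: `u` a place of `M`, `v = dn K u`; map the point and `z` with `(H36CY.over_dn (K := K) u).map : K_v → M_u` (`Te_m3_map`; `LC_map` if you find it).
Real places: compose with `K → M`. `algebraMap L0 LM (ev (D θ0) d) = ev (D θ) (algebraMap ∘ d)` (`U.tower`).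
-/

set_option autoImplicit false
set_option linter.unusedSectionVars false
open scoped Classical

open WithZero NumberField IsDedekindDomain H38RT
open H38T1 (SC sc scu rep eo la si OddP)
open H76PP (Cub LC ev scm dn)
open H88OD H26OD

namespace H38GM

variable {K M : Type} [Field K] [NumberField K] [Field M] [NumberField M] [Algebra K M]
  {L0 LM : Type} [Field L0] [NumberField L0] [Field LM] [NumberField LM] [Algebra K L0]
  [Algebra M LM] [Algebra L0 LM] {a b : K} {θ0 : L0}

/-- The local condition goes up. -/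
private theorem Cu_Wc {k k' F F' L L' : Type} [Field k] [Field k'] [Field F] [Field F'] [Field L]
    [Field L'] [Algebra k L] [Algebra k' L'] (e : k →+* k') (ψ : L →+* L')
    (hψ : ∀ x : k, ψ (algebraMap k L x) = algebraMap k' L' (e x)) (i : k →+* F) (i' : k' →+* F')
    (j : F →+* F') (hij : ∀ x, i' (e x) = j (i x)) {A B : k} {θ : L} {c : SC L}
    (h : H30ZO.Wc i A B θ c) : H30ZO.Wc i' (e A) (e B) (ψ θ) (scm (ψ : L →* L') c) := by
  obtain ⟨d, hne, hc, x, y, z, hy, he, hm⟩ := h
  have hev : ev (ψ θ) (fun s => e (d s)) = ψ (ev θ d) := by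
    unfold ev
    rw [map_add, map_add, map_mul, map_mul, map_pow, hψ, hψ, hψ]
  refine ⟨fun s => e (d s), ?_, ?_, j x, j y, fun s => j (z s), (map_ne_zero _).2 hy, ?_, ?_⟩
  · rw [hev]
    exact (map_ne_zero _).2 hne
  · rw [hev, ← hc, H76PP.scm_sc _ hne]
    rfl
  · rw [hij, hij, ← map_pow, he, map_add, map_add, map_mul, map_pow]
  · have h1 : (fun s => i' (e (d s))) = fun s => j (i (d s)) := funext fun s => hij _
    have h2 : (![j x, -1, 0] : Fin 3 → F') = fun s => j ((![x, -1, 0] : Fin 3 → F) s) := by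
      funext s
      fin_cases s <;> simp
    rw [h1, h2, hij, hij]
    funext s
    rw [H76PP.Te_m3_map j, H76PP.Te_m3_map j, hm]

/-- The restriction is injective. -/
theorem res_inj (hodd : Odd (Module.finrank K M)) {S0 : Ext K K L0 a b θ0} (U : UpN S0 M LM)
    {y : SC L0} (hy : y ∈ H30ZO.HH K L0) (h : scm (algebraMap L0 LM : L0 →* LM) y = 0) : y = 0 := by
  obtain ⟨x, hx, rfl⟩ := H38T1.sc_surj y
  have hx' : algebraMap L0 LM x ≠ 0 := (map_ne_zero _).2 hx
  rw [H76PP.scm_sc _ hx] at h
  have h1 : IsSquare (algebraMap L0 LM x) := (H38T1.sc_eq_zero hx').1 h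
  have hodd' : Odd (Module.finrank L0 LM) := by
    let _ : Algebra K LM := ((algebraMap L0 LM).comp (algebraMap K L0)).toAlgebra
    have ht1 : IsScalarTower K L0 LM := IsScalarTower.of_algebraMap_eq fun x => rfl
    have ht2 : IsScalarTower K M LM := IsScalarTower.of_algebraMap_eq fun x => U.tower x
    have f1 : Module.finrank K L0 * Module.finrank L0 LM = Module.finrank K LM :=
      Module.finrank_mul_finrank K L0 LM
    have f2 : Module.finrank K M * Module.finrank M LM = Module.finrank K LM :=
      Module.finrank_mul_finrank K M LM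
    have f3 : Module.finrank K L0 = 3 := S0.cub.finrank
    have f4 : Module.finrank M LM = 3 := U.cub.finrank
    have f5 : Module.finrank L0 LM = Module.finrank K M := by
      rw [f3] at f1
      rw [f4] at f2
      omega
    rw [f5]
    exact hodd
  exact (H38T1.sc_eq_zero hx).2 (H30OD.sq_down hodd' h1)

/-- The restriction of a class in the Selmer group over `K` is in the Selmer group over `M`. -/
theorem V_up {S0 : Ext K K L0 a b θ0} (U : UpN S0 M LM)
    (S : Ext M M LM (algebraMap K M a) (algebraMap K M b) (algebraMap L0 LM θ0)) {D : K}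
    {y : SC L0} (h : S0.V D y) :
    S.V (algebraMap K M D) (scm (algebraMap L0 LM : L0 →* LM) y) := by
  have hψ : ∀ x : K, (algebraMap L0 LM) (algebraMap K L0 x) = algebraMap M LM (algebraMap K M x) :=
    fun x => U.tower x
  have e2 : algebraMap M M (algebraMap K M D ^ 2 * algebraMap K M a) =
      algebraMap K M (algebraMap K K (D ^ 2 * a)) := by
    rw [Algebra.algebraMap_self_apply, Algebra.algebraMap_self_apply, map_mul, map_pow]
  have e3 : algebraMap M M (algebraMap K M D ^ 3 * algebraMap K M b) =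
      algebraMap K M (algebraMap K K (D ^ 3 * b)) := by
    rw [Algebra.algebraMap_self_apply, Algebra.algebraMap_self_apply, map_mul, map_pow]
  have e4 : algebraMap M LM (algebraMap M M (algebraMap K M D)) * algebraMap L0 LM θ0 =
      algebraMap L0 LM (algebraMap K L0 (algebraMap K K D) * θ0) := by
    rw [Algebra.algebraMap_self_apply, Algebra.algebraMap_self_apply, map_mul, hψ]
  refine ⟨?_, ?_, ?_⟩
  · obtain ⟨x, hx, hxy⟩ := H38T1.sc_surj y
    have h1 := h.hh
    rw [← hxy, H30ZO.mem_HH hx] at h1
    rw [← hxy, H76PP.scm_sc _ hx]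
    change sc (algebraMap L0 LM x) ∈ H30ZO.HH M LM
    rw [H30ZO.mem_HH ((map_ne_zero (algebraMap L0 LM)).2 hx)]
    obtain ⟨r, hr⟩ := h1
    refine ⟨algebraMap K M r, ?_⟩
    have h2 := U.norm x
    rw [hr, map_mul] at h2
    exact h2
  · intro u
    have h1 := h.fin (dn K u)
    have h2 := Cu_Wc (algebraMap K M) (algebraMap L0 LM) hψ
      (algebraMap K ((dn K u).adicCompletion K)) (algebraMap M (u.adicCompletion M))
      (H36CY.over_dn (K := K) u).map (fun x => ((H36CY.over_dn (K := K) u).map_algebraMap x).symm) h1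
    rw [← e2, ← e3, ← e4] at h2
    exact h2
  · intro s
    have h1 := h.inf (s.comp (algebraMap K M))
    have h2 := Cu_Wc (algebraMap K M) (algebraMap L0 LM) hψ
      (s.comp (algebraMap K M)) s (RingHom.id ℝ) (fun x => rfl) h1
    rw [← e2, ← e3, ← e4] at h2
    exact h2

end H38GM
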