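import Pool.Agent.H38.GM.Cb
import Pool.Agent.H38.GM.Cc
import Pool.Agent.H38.GM.Cd
import Pool.Agent.H76.GM.Df
import Pool.Agent.H30.OD.Od3

/-!
# MP_78d38b_GM: descent of Selmer classes from `M` to `K`

`M / K` of odd degree, `N / K` Galois containing `M`.
-/

set_option autoImplicit false
set_option linter.unusedSectionVars false
open scoped Classical

open WithZero NumberField IsDedekindDomain H38RT
open H38T1 (SC sc scu rep eo la si OddP)
open H76PP (Cub LC ev scm dn)
open H88OD H26OD H76PP H30ZO H73P2 H30OD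

namespace H38GM

variable {K M : Type} [Field K] [NumberField K] [Field M] [NumberField M] [Algebra K M]
  {L0 LM : Type} [Field L0] [NumberField L0] [Field LM] [NumberField LM] [Algebra K L0]
  [Algebra M LM] [Algebra L0 LM] {a b : K} {θ0 : L0}

/-- **Descent**: if the restriction is in the Selmer group over `M` then the class is in the Selmer
group over `K`. -/
theorem V_down (hodd : Odd (Module.finrank K M)) (N : Type) [Field N] [NumberField N] [Algebra K N]
    [Algebra M N] [IsScalarTower K M N] [IsGalois K N] {S0 : Ext K K L0 a b θ0} (U : UpN S0 M LM)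
    (S : Ext M M LM (algebraMap K M a) (algebraMap K M b) (algebraMap L0 LM θ0)) {D : K}
    (hD : D ≠ 0) {y : SC L0} (hy : y ∈ H30ZO.HH K L0)
    (h : S.V (algebraMap K M D) (scm (algebraMap L0 LM : L0 →* LM) y)) : S0.V D y := by
  obtain ⟨x, hx, rfl⟩ := H38T1.sc_surj y
  have hψ : ∀ x : K, (algebraMap L0 LM) (algebraMap K L0 x) = algebraMap M LM (algebraMap K M x) :=
    fun x => U.tower x
  obtain ⟨A, hA⟩ : ∃ A, A = algebraMap K K (D ^ 2 * a) := ⟨_, rfl⟩
  obtain ⟨B, hB⟩ : ∃ B, B = algebraMap K K (D ^ 3 * b) := ⟨_, rfl⟩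
  obtain ⟨θ', hθ⟩ : ∃ θ', θ' = algebraMap K L0 (algebraMap K K D) * θ0 := ⟨_, rfl⟩
  have e2 : algebraMap M M (algebraMap K M D ^ 2 * algebraMap K M a) = algebraMap K M A := by
    rw [hA, Algebra.algebraMap_self_apply, Algebra.algebraMap_self_apply, map_mul, map_pow]
  have e3 : algebraMap M M (algebraMap K M D ^ 3 * algebraMap K M b) = algebraMap K M B := by
    rw [hB, Algebra.algebraMap_self_apply, Algebra.algebraMap_self_apply, map_mul, map_pow]
  have e4 : algebraMap M LM (algebraMap M M (algebraMap K M D)) * algebraMap L0 LM θ0 =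
      algebraMap L0 LM θ' := by
    rw [hθ, Algebra.algebraMap_self_apply, Algebra.algebraMap_self_apply, map_mul, hψ]
  have hcub0 : Cub K L0 A B θ' := by
    have h1 := S0.cub.twist hD
    rw [hA, hB, hθ, Algebra.algebraMap_self_apply, Algebra.algebraMap_self_apply,
      Algebra.algebraMap_self_apply]
    rw [Algebra.algebraMap_self_apply, Algebra.algebraMap_self_apply] at h1
    exact h1
  have hDM : algebraMap K M D ≠ 0 := (map_ne_zero _).2 hD
  have hcubM : Cub M LM (algebraMap K M A) (algebraMap K M B) (algebraMap L0 LM θ') := by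
    have h1 := S.cub.twist hDM
    rw [← e2, ← e3, ← e4, Algebra.algebraMap_self_apply, Algebra.algebraMap_self_apply,
      Algebra.algebraMap_self_apply]
    rw [Algebra.algebraMap_self_apply, Algebra.algebraMap_self_apply] at h1
    exact h1
  obtain ⟨d, hd⟩ : ∃ d : Fin 3 → K, ev θ' d = x := ⟨fun j => hcub0.co j x, (hcub0.eq_co x).symm⟩
  have hne : ev θ' d ≠ 0 := by
    rw [hd]
    exact hx
  have hev : ev (algebraMap L0 LM θ') (fun j => algebraMap K M (d j)) =
      algebraMap L0 LM (ev θ' d) := by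
    unfold ev
    rw [map_add, map_add, map_mul, map_mul, map_pow, hψ, hψ, hψ]
  have hneM : ev (algebraMap L0 LM θ') (fun j => algebraMap K M (d j)) ≠ 0 := by
    rw [hev]
    exact (map_ne_zero _).2 hne
  have hc : scm (algebraMap L0 LM : L0 →* LM) (sc x) =
      sc (ev (algebraMap L0 LM θ') (fun j => algebraMap K M (d j))) := by
    rw [H76PP.scm_sc _ hx, hev, hd]
    rfl
  have hnd : Te_nf A B d ≠ 0 := by
    rw [← Te_norm hcub0]
    have hfin0 : Module.Finite K L0 := Module.Finite.of_basis hcub0.basis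
    exact Algebra.norm_ne_zero_iff.2 hne
  have hdisc : 4 * A ^ 3 + 27 * B ^ 2 ≠ 0 := by
    have h1 : 4 * A ^ 3 + 27 * B ^ 2 = D ^ 6 * (4 * a ^ 3 + 27 * b ^ 2) := by
      rw [hA, hB, Algebra.algebraMap_self_apply, Algebra.algebraMap_self_apply]
      ring
    rw [h1]
    exact mul_ne_zero (pow_ne_zero _ hD) S0.dne
  refine ⟨hy, fun v => ?_, fun s => ?_⟩
  · obtain ⟨W, rfl, hW⟩ := exists_W (K := K) (M := M) (N := N) hodd v
    have h1 := h.fin (dn M W)
    unfold Ext.Lv at h1 ⊢
    rw [hc, e2, e3, e4] at h1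
    rw [← hA, ← hB, ← hθ, ← hd]
    have h2 := (Wc_iff _ hcubM hneM).1 h1
    have h3 : LC ((algebraMap M ((dn M W).adicCompletion M)).comp (algebraMap K M)) A B d := by
      unfold LC at h2 ⊢
      simp only [RingHom.comp_apply]
      exact h2
    exact (Wc_iff _ hcub0 hne).2 (LC_downS hdisc hnd hW h3)
  · obtain ⟨s', hs'⟩ := exists_realM (M := M) hodd s
    have h1 := h.inf s'
    unfold Ext.Lr at h1 ⊢
    rw [hc, e2, e3, e4] at h1
    rw [← hA, ← hB, ← hθ, ← hd]
    have h2 := (Wc_iff _ hcubM hneM).1 h1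
    unfold LC at h2
    simp only [hs'] at h2
    exact (Wc_iff _ hcub0 hne).2 h2

end H38GM
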