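import Pool.Agent.H30.OD.Od2

/-!
ROW GM/Ra (project MP_78d38b_GM, about 120 lines): the ring `F[θ]`, `θ^3 + A θ + B = 0`, as an `AdjoinRoot`, and the local condition `LC` in it.

`m3 A B z w` (Pool/Agent/H76/PP/Df1.lean) are the coordinates of the product of `z0 + z1 θ + z2 θ^2` and `w0 + w1 θ + w2 θ^2`.
th_root: `AdjoinRoot.eval₂_root` or `aeval_eq`, `mk_self`.  tr_m3: ring identity, `linear_combination (..) * th_root`.
tr_inj: `f` is monic of degree 3, so `1, θ, θ^2` is a basis (`AdjoinRoot.powerBasis'`; or: `tr d = mk (C d0 + C d1 X + C d2 X^2)`, `AdjoinRoot.mk_eq_zero`, `f ∣ p`, `deg p < 3` gives `p = 0`).  tr_surj: `p %ₘ f`.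
tr_unit: there is `e` with `tr d * tr e = nf` (adjugate; look for it near `Te_nf` in Pool/Agent/H76/PP/*.lean or H36/MT; or: multiplication by `tr d` is injective since its determinant in the basis is `Te_nf A B d`, finite dimension; or: an identity `m3 A B d e = ![Te_nf A B d, 0, 0]` with an explicit `e`, quadratic in `d`).
LC_iff: unfold `LC`, tr_m3, tr_X, tr_inj, tr_surj.
-/

set_option autoImplicit false
set_option linter.unusedSectionVars false
open scoped Classical

open WeierstrassCurve H76PP H30ZO H73P2 Pool.Agent.H10 H30OD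

namespace H38GM

section

variable {F : Type} [Field F] (A B : F)

/-- The polynomial. -/
noncomputable def ff : Polynomial F :=
  Polynomial.X ^ 3 + Polynomial.C A * Polynomial.X + Polynomial.C B

/-- The ring `F[θ]`. -/
abbrev RR : Type := AdjoinRoot (ff A B)

/-- The element `θ`. -/
noncomputable def th : RR A B := AdjoinRoot.root (ff A B)

/-- The element with given coordinates. -/
noncomputable def tr (d : Fin 3 → F) : RR A B :=
  algebraMap F (RR A B) (d 0) + algebraMap F (RR A B) (d 1) * th A B +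
    algebraMap F (RR A B) (d 2) * th A B ^ 2

private theorem ra_natDegree : (ff A B).natDegree = 3 := by
  unfold ff
  compute_degree!

private theorem ra_monic : (ff A B).Monic := by
  unfold ff
  monicity!

private theorem ra_mk_C (x : F) : AdjoinRoot.mk (ff A B) (Polynomial.C x) = algebraMap F (RR A B) x :=
  rfl

private theorem ra_mk_X : AdjoinRoot.mk (ff A B) Polynomial.X = th A B := rfl

private theorem ra_tr (d : Fin 3 → F) :
    tr A B d = AdjoinRoot.mk (ff A B)
      (Polynomial.C (d 0) + Polynomial.C (d 1) * Polynomial.X +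
        Polynomial.C (d 2) * Polynomial.X ^ 2) := by
  rw [map_add, map_add, map_mul, map_mul, map_pow, ra_mk_C, ra_mk_C, ra_mk_C, ra_mk_X]
  rfl

theorem th_root : th A B ^ 3 + algebraMap F (RR A B) A * th A B + algebraMap F (RR A B) B = 0 := by
  have h : AdjoinRoot.mk (ff A B) (ff A B) = 0 := AdjoinRoot.mk_self
  rw [← h]
  conv_rhs => unfold ff
  rw [map_add, map_add, map_mul, map_pow]
  rfl

theorem tr_m3 (z w : Fin 3 → F) : tr A B (m3 A B z w) = tr A B z * tr A B w := by
  have hr := th_root A B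
  simp only [tr, m3, Matrix.cons_val_zero, Matrix.cons_val_one, Matrix.cons_val_two,
    Matrix.head_cons, Matrix.tail_cons, map_add, map_sub, map_mul]
  generalize algebraMap F (RR A B) (z 0) = a0
  generalize algebraMap F (RR A B) (z 1) = a1
  generalize algebraMap F (RR A B) (z 2) = a2
  generalize algebraMap F (RR A B) (w 0) = b0
  generalize algebraMap F (RR A B) (w 1) = b1
  generalize algebraMap F (RR A B) (w 2) = b2
  linear_combination -(a1 * b2 + a2 * b1 + a2 * b2 * th A B) * hr

theorem tr_inj : Function.Injective (tr A B) := by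
  intro d e h
  have h1 : tr A B d - tr A B e = 0 := sub_eq_zero.2 h
  rw [ra_tr, ra_tr, ← map_sub, AdjoinRoot.mk_eq_zero] at h1
  set p : Polynomial F := (Polynomial.C (d 0) + Polynomial.C (d 1) * Polynomial.X +
        Polynomial.C (d 2) * Polynomial.X ^ 2) - (Polynomial.C (e 0) + Polynomial.C (e 1) * Polynomial.X +
        Polynomial.C (e 2) * Polynomial.X ^ 2) with hp
  have hdeg : p.degree < (ff A B).degree := by
    rw [Polynomial.degree_eq_natDegree (ra_monic A B).ne_zero, ra_natDegree]
    have : p.degree ≤ 2 := by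
      rw [hp]
      compute_degree
    exact lt_of_le_of_lt this (by norm_num)
  have h2 : p = 0 := Polynomial.eq_zero_of_dvd_of_degree_lt h1 hdeg
  have hc : ∀ n, p.coeff n = 0 := fun n => by rw [h2, Polynomial.coeff_zero]
  have c0 := hc 0
  have c1 := hc 1
  have c2 := hc 2
  rw [hp] at c0 c1 c2
  simp [Polynomial.coeff_X, Polynomial.coeff_C] at c0 c1 c2
  funext j
  fin_cases j
  · exact sub_eq_zero.1 c0
  · exact sub_eq_zero.1 c1
  · exact sub_eq_zero.1 c2

theorem tr_surj : Function.Surjective (tr A B) := by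
  intro r
  obtain ⟨p, rfl⟩ := AdjoinRoot.mk_surjective r
  have hm := ra_monic A B
  have h1 : AdjoinRoot.mk (ff A B) p = AdjoinRoot.mk (ff A B) (p %ₘ ff A B) := by
    rw [AdjoinRoot.mk_eq_mk]
    have := Polynomial.modByMonic_add_div p (ff A B)
    exact ⟨p /ₘ ff A B, by linear_combination -this⟩
  have hdeg : (p %ₘ ff A B).natDegree < 3 := by
    have := Polynomial.natDegree_modByMonic_lt p hm (fun h => by
      have h3 := ra_natDegree A B
      rw [h, Polynomial.natDegree_one] at h3
      omega)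
    rwa [ra_natDegree] at this
  refine ⟨fun j => (p %ₘ ff A B).coeff j, ?_⟩
  rw [h1, ra_tr]
  congr 1
  conv_rhs => rw [Polynomial.as_sum_range' (p %ₘ ff A B) 3 hdeg]
  simp [Finset.sum_range_succ, ← Polynomial.C_mul_X_pow_eq_monomial]

theorem tr_X (x : F) : tr A B ![x, -1, 0] = algebraMap F (RR A B) x - th A B := by
  simp [tr, sub_eq_add_neg]

theorem tr_unit {d : Fin 3 → F} (h : Te_nf A B d ≠ 0) : IsUnit (tr A B d) := by
  have h1 : tr A B d * tr A B (Te_C A B d) = algebraMap F (RR A B) (Te_nf A B d) := by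
    rw [← tr_m3, Te_m3_adj]
    simp [tr]
  have h2 : IsUnit (algebraMap F (RR A B) (Te_nf A B d)) := (IsUnit.mk0 _ h).map _
  rw [← h1] at h2
  exact isUnit_of_mul_isUnit_left h2

theorem mk_eq (p : Polynomial F) : AdjoinRoot.mk (ff A B) p = Polynomial.aeval (th A B) p := by
  exact (AdjoinRoot.aeval_eq p).symm

end

/-- The local condition. -/
theorem LC_iff {K F : Type} [Field K] [Field F] (i : K →+* F) {a b : K} {d : Fin 3 → K} :
    LC i a b d ↔ ∃ (x y : F) (z : RR (i a) (i b)), y ≠ 0 ∧ y ^ 2 = x ^ 3 + i a * x + i b ∧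
      tr (i a) (i b) (fun j => i (d j)) * (algebraMap F _ x - th (i a) (i b)) = z * z := by
  unfold LC
  constructor
  · rintro ⟨x, y, z, hy, hxy, hz⟩
    refine ⟨x, y, tr (i a) (i b) z, hy, hxy, ?_⟩
    rw [← tr_X, ← tr_m3, ← tr_m3, hz]
  · rintro ⟨x, y, z, hy, hxy, hz⟩
    obtain ⟨w, rfl⟩ := tr_surj (i a) (i b) z
    refine ⟨x, y, w, hy, hxy, ?_⟩
    apply tr_inj (i a) (i b)
    rw [tr_m3, tr_m3, tr_X, hz]

end H38GM
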