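import Pool.Agent.H38.GM.Rt

/-!
ROW GM/Rs (project MP_78d38b_GM, about 170 lines): the class of the sum of the conjugates.

PROOF of core. `f = ff A B = X^3 + A X + B`, `R = RR A B`, `n = 2 k + 1`. In `R` write `p(θ)` for `AdjoinRoot.mk (ff A B) p` (mk_eq). `H := P^2 - f Q^2 = χ G` (hdvd).
`H ≠ 0`: otherwise `P^2 = f Q^2`, the degrees have different parity, so `P = Q = 0`, contradiction. `deg P ≤ k + 1`, `deg Q ≤ k - 1` (`Q = 0` if `k = 0`), so `deg H ≤ 2 k + 2 = n + 1` and `deg G ≤ 1`, `G = C α * X + C β`.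
`χ(θ)` is a unit in `R` (hcop: `u χ + v f = 1`). CLAIM: there are `σ, s ∈ R` and `x2, y2 : F`, `t ∈ R` with `(-χ(θ)) σ = s * s`, `y2 ≠ 0`, `y2^2 = f(x2)`, `σ (x2 - θ) = t * t`.
 (i) `α = 0`: then `β ≠ 0`, `deg H = n = 2 k + 1` is odd, so the leading term is that of `- f Q^2`: `β = - b^2`, `b` the leading coefficient of `Q`; `P(θ)^2 = H(θ) = - b^2 χ(θ)`: `σ = 1`, `s = P(θ) / b`; `x2` from triv_pt.
 (ii) `α ≠ 0`: `deg H = 2 k + 2`, so `deg P = k + 1` and `α = a^2`, `a` the leading coefficient of `P`. `x0 := - β / α`, `G = α (X - x0)`. `H(x0) = 0`: `P(x0)^2 = f(x0) Q(x0)^2`. `(X - x0)` does not divide `χ` (hno). If `Q(x0) = 0` then `P(x0) = 0` and `(X - x0)^2` divides `H = χ α (X - x0)`, so `(X - x0) ∣ χ`: contradiction.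
 So `Q(x0) ≠ 0` and `f(x0) = y0^2`, `y0 = P(x0) / Q(x0)`. At `θ`: `P(θ)^2 = χ(θ) α (θ - x0)`, so `(-χ(θ)) (x0 - θ) = (P(θ) / a)^2`.
   (iia) `y0 ≠ 0`: `σ = x0 - θ`, `x2 = x0`, `y2 = y0`, `t = x0 - θ`.
   (iib) `f(x0) = 0`: `P(x0) = 0`, `P = (X - x0) P2`, `f = (X - x0) g`, `g = X^2 + x0 X + (x0^2 + A)`; dividing `H` by `X - x0`: `(X - x0) P2^2 - g Q^2 = a^2 χ`. With `τ = g(θ) + (x0 - θ)` and `g(θ)(x0 - θ) = 0`: `(-χ(θ)) τ a^2 = (g(θ) Q(θ) + (x0 - θ) P2(θ))^2`. `σ = τ`, tors_pt.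
From the CLAIM: `d^n (-χ) = w^2`, `d = tr A B d`, a unit (tr_unit): `(d σ) (d^k χ)^2 = d^n σ χ^2 = (w s)^2`  [`d^n (-χ) * (-χ) σ = w^2 s^2`], so `d σ = v^2`; `(d (x2 - θ)) σ^2 = (v t)^2` and `σ` is a unit (`(-χ) σ = s^2` does not give it; but `d σ (x2 - θ)..`: `x2 - θ` is a unit since its norm is `y2^2 ≠ 0`, and `σ (x2 - θ) = t^2`:
multiply `d σ = v^2` by `σ (x2 - θ)^2 / σ^2`.. instead: `d (x2 - θ) * (σ (x2 - θ))^2 = (d σ) (σ (x2 - θ)) (x2 - θ)^2 = (v t (x2 - θ))^2` and `σ` is a unit in each case: (i) clear, (iia) norm `f(x0) ≠ 0`, (iib) `τ (x1 - θ)(x' - θ)` ..; simplest: put `IsUnit σ` into the claim; (iib): `τ` is a unit since `τ * (g(θ) / g(x0)^2 ..)`: modulo `X - x0` it is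
`g(x0) ≠ 0`, modulo `g` it is `x0 - θ` which is a unit modulo `g`: so the polynomial `g + (x0 - X)` is coprime to `f = (X - x0) g` (`IsCoprime.mul_right`)).
Then `m3 A B d ![x2, -1, 0] = m3 A B z z` by tr_inj, tr_surj, tr_m3, tr_X.
-/

set_option autoImplicit false
set_option linter.unusedSectionVars false
open scoped Classical

open WeierstrassCurve H76PP H30ZO H73P2 Pool.Agent.H10 H30OD

namespace H38GM

variable {F : Type} [Field F] [CharZero F] {A B : F}

theorem Rs_fin {R : Type} [CommRing R] {D c w s σ t e : R} {k : ℕ} (hD : IsUnit D) (hc : IsUnit c)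
    (hσ : IsUnit σ) (hw : D ^ (2 * k + 1) * (-c) = w * w) (hs : -c * σ = s * s)
    (ht : σ * e = t * t) : ∃ z : R, D * e = z * z := by
  obtain ⟨Di, hDi⟩ := hD.exists_right_inv
  obtain ⟨ci, hci⟩ := hc.exists_right_inv
  obtain ⟨σi, hσi⟩ := hσ.exists_right_inv
  have hk : D ^ k * Di ^ k = 1 := by
    rw [← mul_pow, hDi, one_pow]
  refine ⟨w * s * t * (Di ^ k * ci * σi), ?_⟩
  have h1 : w * s * t * (Di ^ k * ci * σi) * (w * s * t * (Di ^ k * ci * σi)) =
      (w * w) * (s * s) * (t * t) * ((Di ^ k) ^ 2 * ci ^ 2 * σi ^ 2) := by ring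
  have h2 : (D ^ (2 * k + 1) * (-c)) * (-c * σ) * (σ * e) * ((Di ^ k) ^ 2 * ci ^ 2 * σi ^ 2) =
      D * e * (D ^ k * Di ^ k) ^ 2 * (c * ci) ^ 2 * (σ * σi) ^ 2 := by ring
  rw [h1, ← hw, ← hs, ← ht, h2, hk, hci, hσi]
  ring

theorem Rs_C (c : F) : AdjoinRoot.mk (ff A B) (Polynomial.C c) = algebraMap F (RR A B) c := rfl

theorem Rs_X : AdjoinRoot.mk (ff A B) Polynomial.X = th A B := rfl

theorem Rs_ff : AdjoinRoot.mk (ff A B) (ff A B) = 0 := AdjoinRoot.mk_self

theorem Rs_monic : (ff A B).Monic := by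
  unfold ff
  monicity!

theorem Rs_deg : (ff A B).natDegree = 3 := by
  unfold ff
  compute_degree!

theorem Rs_ne : ff A B ≠ 0 := Rs_monic.ne_zero

/-- `x - θ` is a unit if `f(x) ≠ 0` -/
theorem Rs_unit {x : F} (h : x ^ 3 + A * x + B ≠ 0) :
    IsUnit (algebraMap F (RR A B) x - th A B) := by
  have h1 : (algebraMap F (RR A B) x - th A B) *
      (algebraMap F (RR A B) x ^ 2 + algebraMap F (RR A B) x * th A B + th A B ^ 2 +
        algebraMap F (RR A B) A) = algebraMap F (RR A B) (x ^ 3 + A * x + B) := by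
    have h2 := th_root A B
    simp only [map_add, map_mul, map_pow]
    linear_combination (-1 : RR A B) * h2
  have h3 : IsUnit (algebraMap F (RR A B) (x ^ 3 + A * x + B)) :=
    (IsUnit.mk0 _ h).map (algebraMap F (RR A B))
  rw [← h1] at h3
  exact isUnit_of_mul_isUnit_left h3

/-- `τ` is a unit -/
theorem Rs_tau (hd : 4 * A ^ 3 + 27 * B ^ 2 ≠ 0) {x0 : F} (h0 : x0 ^ 3 + A * x0 + B = 0) :
    IsUnit ((th A B ^ 2 + algebraMap F _ x0 * th A B + algebraMap F _ (x0 ^ 2 + A)) +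
        (algebraMap F _ x0 - th A B) : RR A B) := by
  have he : 3 * x0 ^ 2 + A ≠ 0 := by
    intro h
    apply hd
    have hA : A = -3 * x0 ^ 2 := by linear_combination h
    have hB : B = 2 * x0 ^ 3 := by
      rw [hA] at h0
      linear_combination h0
    rw [hA, hB]
    ring
  obtain ⟨G, hG⟩ : ∃ G : RR A B, G = th A B ^ 2 + algebraMap F _ x0 * th A B +
    algebraMap F _ (x0 ^ 2 + A) := ⟨_, rfl⟩
  obtain ⟨E, hE⟩ : ∃ E : RR A B, E = algebraMap F _ (3 * x0 ^ 2 + A) := ⟨_, rfl⟩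
  obtain ⟨D, hDD⟩ : ∃ D : RR A B, D = algebraMap F _ x0 - th A B := ⟨_, rfl⟩
  obtain ⟨m, hm⟩ : ∃ m : RR A B, m = th A B + 2 * algebraMap F _ x0 := ⟨_, rfl⟩
  have hGD : G * D = 0 := by
    have h2 := th_root A B
    have h3 : algebraMap F (RR A B) (x0 ^ 3 + A * x0 + B) = 0 := by rw [h0, map_zero]
    simp only [map_add, map_mul, map_pow] at h3
    rw [hG, hDD]
    simp only [map_add, map_mul, map_pow]
    linear_combination h3 - h2
  have hDm : D * m = E - G := by
    rw [hDD, hm, hE, hG]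
    simp only [map_add, map_mul, map_pow, map_ofNat]
    ring
  have hGG : G * G = E * G := by
    linear_combination G * hDm - m * hGD
  have hfin : (G + D) * (m * (E - G) + G) = E ^ 2 := by
    linear_combination hGD + (E - G) * hDm + (2 - m) * hGG
  have hEu : IsUnit (E ^ 2) := by
    rw [hE]
    exact ((IsUnit.mk0 _ he).map (algebraMap F (RR A B))).pow 2
  rw [← hG, ← hDD]
  rw [← hfin] at hEu
  exact isUnit_of_mul_isUnit_left hEu

/-- the claim -/
theorem Rs_claim (hd : 4 * A ^ 3 + 27 * B ^ 2 ≠ 0) (hinf : Infinite (Pc A B)) {k : ℕ}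
    {χ P Q : Polynomial F} (hm : χ.Monic) (hn : χ.natDegree = 2 * k + 1)
    (hno : ∀ t, χ.eval t ≠ 0) (h0 : P ≠ 0 ∨ Q ≠ 0)
    (hP : P.degree < ((k + 2 : ℕ) : WithBot ℕ)) (hQ : Q.degree < ((k : ℕ) : WithBot ℕ))
    (hdvd : χ ∣ P ^ 2 - ff A B * Q ^ 2) :
    ∃ (σ s t : RR A B) (x y : F), IsUnit σ ∧ y ≠ 0 ∧ y ^ 2 = x ^ 3 + A * x + B ∧
      -(AdjoinRoot.mk (ff A B) χ) * σ = s * s ∧
      σ * (algebraMap F (RR A B) x - th A B) = t * t := by
  obtain ⟨G, hG⟩ := hdvd
  have hQ' : Q = 0 ∨ Q.natDegree < k := by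
    by_cases h : Q = 0
    · exact Or.inl h
    · exact Or.inr ((Polynomial.natDegree_lt_iff_degree_lt h).2 hQ)
  have hP' : P.natDegree ≤ k + 1 := by
    by_cases h : P = 0
    · rw [h]
      simp
    · have := (Polynomial.natDegree_lt_iff_degree_lt h).2 hP
      omega
  -- `H ≠ 0`
  have hH : P ^ 2 - ff A B * Q ^ 2 ≠ 0 := by
    intro h
    have h1 : P ^ 2 = ff A B * Q ^ 2 := sub_eq_zero.1 h
    by_cases hQ0 : Q = 0
    · rw [hQ0] at h1
      have h2 : P = 0 := by
        have : P ^ 2 = 0 := by rw [h1]; ring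
        exact pow_eq_zero_iff (two_ne_zero) |>.1 this
      rcases h0 with h3 | h3
      · exact h3 h2
      · exact h3 hQ0
    · have h2 := congrArg Polynomial.natDegree h1
      rw [Polynomial.natDegree_pow, Polynomial.natDegree_mul Rs_ne (pow_ne_zero 2 hQ0), Rs_deg,
        Polynomial.natDegree_pow] at h2
      omega
  have hG0 : G ≠ 0 := by
    intro h
    rw [h, mul_zero] at hG
    exact hH hG
  have hχ0 : χ ≠ 0 := hm.ne_zero
  have hdP : (P ^ 2).natDegree ≤ 2 * k + 2 := by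
    rw [Polynomial.natDegree_pow]
    omega
  have hdQ : (ff A B * Q ^ 2).natDegree ≤ 2 * k + 1 := by
    rcases hQ' with h | h
    · rw [h]
      simp
    · have h1 : (ff A B * Q ^ 2).natDegree ≤ (ff A B).natDegree + (Q ^ 2).natDegree :=
        Polynomial.natDegree_mul_le
      rw [Rs_deg, Polynomial.natDegree_pow] at h1
      omega
  have hdH : (P ^ 2 - ff A B * Q ^ 2).natDegree ≤ 2 * k + 2 := by
    refine (Polynomial.natDegree_sub_le _ _).trans ?_
    omega
  have hdG : G.natDegree ≤ 1 := by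
    have h1 := congrArg Polynomial.natDegree hG
    rw [Polynomial.natDegree_mul hχ0 hG0, hn] at h1
    omega
  obtain ⟨α, β, hαβ⟩ := Polynomial.exists_eq_X_add_C_of_natDegree_le_one hdG
  obtain ⟨a, ha⟩ : ∃ a : F, a = P.coeff (k + 1) := ⟨_, rfl⟩
  obtain ⟨b, hb⟩ : ∃ b : F, b = Q.coeff (k - 1) := ⟨_, rfl⟩
  have hcP : (P ^ 2).coeff (2 * k + 2) = a * a := by
    have h1 := Polynomial.coeff_mul_add_eq_of_natDegree_le (f := P) (g := P) hP' hP'
    rw [sq, ha, ← h1]
    congr 1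
    ring
  have hcQ2 : (ff A B * Q ^ 2).coeff (2 * k + 2) = 0 :=
    Polynomial.coeff_eq_zero_of_natDegree_lt (by omega)
  have hcQ1 : (ff A B * Q ^ 2).coeff (2 * k + 1) = b * b := by
    rcases hQ' with h | h
    · rw [hb, h]
      simp
    · have h1 : Q.natDegree ≤ k - 1 := by omega
      have h2 := Polynomial.coeff_mul_add_eq_of_natDegree_le (f := Q) (g := Q) h1 h1
      have h3 : (Q * Q).natDegree ≤ (k - 1) + (k - 1) :=
        Polynomial.natDegree_mul_le.trans (by omega)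
      have h4 := Polynomial.coeff_mul_add_eq_of_natDegree_le (f := ff A B) (g := Q * Q)
        (le_of_eq Rs_deg) h3
      have h5 : (ff A B).coeff 3 = 1 := by
        have := (Rs_monic (A := A) (B := B)).coeff_natDegree
        rwa [Rs_deg] at this
      have h6 : 2 * k + 1 = 3 + ((k - 1) + (k - 1)) := by omega
      rw [h6, sq, h4, h5, one_mul, h2, hb]
  have hχc : χ.coeff (2 * k + 1) = 1 := by
    have := hm.coeff_natDegree
    rwa [hn] at this
  have hα : α = a * a := by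
    have h1 := congrArg (fun p : Polynomial F => p.coeff (2 * k + 1 + 1)) hG
    have h2 := Polynomial.coeff_mul_add_eq_of_natDegree_le (f := χ) (g := G) (le_of_eq hn) hdG
    have h3 : G.coeff 1 = α := by
      rw [hαβ]
      simp
    have h4 : (P ^ 2 - ff A B * Q ^ 2).coeff (2 * k + 1 + 1) = a * a := by
      rw [Polynomial.coeff_sub]
      have e : 2 * k + 1 + 1 = 2 * k + 2 := rfl
      rw [e, hcP, hcQ2, sub_zero]
    change (P ^ 2 - ff A B * Q ^ 2).coeff (2 * k + 1 + 1) = (χ * G).coeff (2 * k + 1 + 1) at h1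
    rw [h4, h2, h3, hχc, one_mul] at h1
    exact h1.symm
  -- evaluation at `θ`
  have hθ : AdjoinRoot.mk (ff A B) P ^ 2 =
      AdjoinRoot.mk (ff A B) χ * AdjoinRoot.mk (ff A B) G := by
    have h1 := congrArg (AdjoinRoot.mk (ff A B)) hG
    rw [map_sub, map_mul, map_pow, map_pow, map_mul, Rs_ff, zero_mul, sub_zero] at h1
    exact h1
  have hGθ : AdjoinRoot.mk (ff A B) G = algebraMap F (RR A B) α * th A B +
      algebraMap F (RR A B) β := by
    rw [hαβ, map_add, map_mul, Rs_C, Rs_C, Rs_X]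
  by_cases hα0 : α = 0
  · -- case (i)
    have ha0 : a = 0 := by
      rw [hα0] at hα
      exact mul_self_eq_zero.1 hα.symm
    have hPk : P.natDegree ≤ k := by
      by_contra hcon
      have h1 : P.natDegree = k + 1 := by omega
      have h2 : P.leadingCoeff = 0 := by
        rw [Polynomial.leadingCoeff, h1, ← ha, ha0]
      rw [Polynomial.leadingCoeff_eq_zero] at h2
      rw [h2] at h1
      simp at h1
    have hβ : β = -(b * b) := by
      have h1 := congrArg (fun p : Polynomial F => p.coeff (2 * k + 1 + 0)) hG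
      have h5 : G.natDegree ≤ 0 := by
        rw [hαβ, hα0]
        simp
      have h2 := Polynomial.coeff_mul_add_eq_of_natDegree_le (f := χ) (g := G) (le_of_eq hn) h5
      have h3 : G.coeff 0 = β := by
        rw [hαβ]
        simp
      have h4 : (P ^ 2 - ff A B * Q ^ 2).coeff (2 * k + 1 + 0) = -(b * b) := by
        rw [Polynomial.coeff_sub]
        have e : 2 * k + 1 + 0 = 2 * k + 1 := rfl
        have h6 : (P ^ 2).coeff (2 * k + 1) = 0 := by
          apply Polynomial.coeff_eq_zero_of_natDegree_lt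
          rw [Polynomial.natDegree_pow]
          omega
        rw [e, h6, hcQ1, zero_sub]
      change (P ^ 2 - ff A B * Q ^ 2).coeff (2 * k + 1 + 0) = (χ * G).coeff (2 * k + 1 + 0) at h1
      rw [h4, h2, h3, hχc, one_mul] at h1
      exact h1.symm
    have hb0 : b ≠ 0 := by
      intro h
      apply hG0
      rw [hαβ, hα0, hβ, h]
      simp
    obtain ⟨x, y, z, hy, hxy, hz⟩ := triv_pt hd hinf
    refine ⟨1, AdjoinRoot.mk (ff A B) P * algebraMap F (RR A B) b⁻¹, z, x, y, isUnit_one, hy, hxy,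
      ?_, ?_⟩
    · have h1 : algebraMap F (RR A B) b * algebraMap F (RR A B) b⁻¹ = 1 := by
        rw [← map_mul, mul_inv_cancel₀ hb0, map_one]
      have h2 : AdjoinRoot.mk (ff A B) P ^ 2 = AdjoinRoot.mk (ff A B) χ *
          (-(algebraMap F (RR A B) b * algebraMap F (RR A B) b)) := by
        rw [hθ, hGθ, hα0, hβ]
        simp
      linear_combination (-(algebraMap F (RR A B) b⁻¹) ^ 2) * h2 +
        (AdjoinRoot.mk (ff A B) χ * (algebraMap F (RR A B) b * algebraMap F (RR A B) b⁻¹ + 1)) * h1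
    · rw [one_mul]
      exact hz
  · -- case (ii)
    have ha0 : a ≠ 0 := by
      intro h
      apply hα0
      rw [hα, h, mul_zero]
    obtain ⟨x0, hx0⟩ : ∃ x0 : F, x0 = -β / α := ⟨_, rfl⟩
    have hβx : β = -(α * x0) := by
      rw [hx0]
      field_simp
    have hGx : G = Polynomial.C α * (Polynomial.X - Polynomial.C x0) := by
      rw [hαβ, hβx]
      simp only [map_neg, map_mul]
      ring
    have hX0 : (Polynomial.X - Polynomial.C x0 : Polynomial F) ≠ 0 := Polynomial.X_sub_C_ne_zero x0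
    have hev : P.eval x0 ^ 2 = (x0 ^ 3 + A * x0 + B) * Q.eval x0 ^ 2 := by
      have h1 := congrArg (Polynomial.eval x0) hG
      rw [hGx] at h1
      have h2 : (ff A B).eval x0 = x0 ^ 3 + A * x0 + B := by
        unfold ff
        simp
      simp only [Polynomial.eval_sub, Polynomial.eval_mul, Polynomial.eval_pow, Polynomial.eval_C,
        Polynomial.eval_X, sub_self, mul_zero] at h1
      rw [h2] at h1
      linear_combination h1
    have hQx : Q.eval x0 ≠ 0 := by
      intro hQ0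
      have hP0 : P.eval x0 = 0 := by
        rw [hQ0] at hev
        have : P.eval x0 ^ 2 = 0 := by rw [hev]; ring
        exact pow_eq_zero_iff (two_ne_zero) |>.1 this
      obtain ⟨P1, hP1⟩ := Polynomial.dvd_iff_isRoot.2 hP0
      obtain ⟨Q1, hQ1⟩ := Polynomial.dvd_iff_isRoot.2 hQ0
      have h1 : (Polynomial.X - Polynomial.C x0) *
          ((Polynomial.X - Polynomial.C x0) * (P1 ^ 2 - ff A B * Q1 ^ 2)) =
          (Polynomial.X - Polynomial.C x0) * (χ * Polynomial.C α) := by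
        rw [hGx] at hG
        rw [hP1, hQ1] at hG
        linear_combination hG
      have h2 := mul_left_cancel₀ hX0 h1
      have h3 := congrArg (Polynomial.eval x0) h2
      simp only [Polynomial.eval_sub, Polynomial.eval_mul, Polynomial.eval_pow, Polynomial.eval_C,
        Polynomial.eval_X, sub_self, zero_mul] at h3
      rcases mul_eq_zero.1 h3.symm with h4 | h4
      · exact hno x0 h4
      · exact hα0 h4
    have hai : algebraMap F (RR A B) a * algebraMap F (RR A B) a⁻¹ = 1 := by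
      rw [← map_mul, mul_inv_cancel₀ ha0, map_one]
    have hαa : algebraMap F (RR A B) α = algebraMap F (RR A B) a * algebraMap F (RR A B) a := by
      rw [hα, map_mul]
    have hGθ' : AdjoinRoot.mk (ff A B) G = algebraMap F (RR A B) a * algebraMap F (RR A B) a *
        (th A B - algebraMap F (RR A B) x0) := by
      rw [hGθ, hβx, map_neg, map_mul, hαa]
      ring
    by_cases hfx : x0 ^ 3 + A * x0 + B = 0
    · -- case (iib)
      have hP0 : P.eval x0 = 0 := by
        rw [hfx, zero_mul] at hev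
        exact pow_eq_zero_iff (two_ne_zero) |>.1 hev
      obtain ⟨P1, hP1⟩ := Polynomial.dvd_iff_isRoot.2 hP0
      obtain ⟨g, hg⟩ : ∃ g : Polynomial F, g = Polynomial.X ^ 2 + Polynomial.C x0 * Polynomial.X +
        Polynomial.C (x0 ^ 2 + A) := ⟨_, rfl⟩
      have hfg : ff A B = (Polynomial.X - Polynomial.C x0) * g := by
        have h1 : Polynomial.C (x0 ^ 3 + A * x0 + B) = (0 : Polynomial F) := by
          rw [hfx, map_zero]
        simp only [map_add, map_mul, map_pow] at h1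
        rw [hg]
        unfold ff
        simp only [map_add, map_mul, map_pow]
        linear_combination h1
      have h1 : (Polynomial.X - Polynomial.C x0) *
          ((Polynomial.X - Polynomial.C x0) * P1 ^ 2 - g * Q ^ 2) =
          (Polynomial.X - Polynomial.C x0) * (χ * Polynomial.C α) := by
        rw [hGx] at hG
        rw [hP1] at hG
        rw [hfg] at hG
        linear_combination hG
      have h2 := mul_left_cancel₀ hX0 h1
      have h3 := congrArg (AdjoinRoot.mk (ff A B)) h2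
      rw [map_sub, map_mul, map_sub, map_mul, map_mul, map_pow, map_pow, Rs_X, Rs_C, Rs_C,
        hαa] at h3
      have hgθ : AdjoinRoot.mk (ff A B) g = th A B ^ 2 + algebraMap F (RR A B) x0 * th A B +
          algebraMap F (RR A B) (x0 ^ 2 + A) := by
        rw [hg, map_add, map_add, map_pow, map_mul, Rs_X, Rs_C, Rs_C]
      obtain ⟨x, y, z, hy, hxy, hz⟩ := tors_pt hd hinf hfx
      have hgD : AdjoinRoot.mk (ff A B) g * (algebraMap F (RR A B) x0 - th A B) = 0 := by
        have h4 := th_root A B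
        have h5 : algebraMap F (RR A B) (x0 ^ 3 + A * x0 + B) = 0 := by rw [hfx, map_zero]
        simp only [map_add, map_mul, map_pow] at h5
        rw [hgθ]
        simp only [map_add, map_mul, map_pow]
        linear_combination h5 - h4
      refine ⟨_, (AdjoinRoot.mk (ff A B) g * AdjoinRoot.mk (ff A B) Q +
        (algebraMap F (RR A B) x0 - th A B) * AdjoinRoot.mk (ff A B) P1) *
          algebraMap F (RR A B) a⁻¹, z, x, y, Rs_tau hd hfx, hy, hxy, ?_, hz⟩
      rw [← hgθ]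
      obtain ⟨gg, hgg⟩ : ∃ gg : RR A B, gg = AdjoinRoot.mk (ff A B) g := ⟨_, rfl⟩
      obtain ⟨qq, hqq⟩ : ∃ qq : RR A B, qq = AdjoinRoot.mk (ff A B) Q := ⟨_, rfl⟩
      obtain ⟨pp, hpp⟩ : ∃ pp : RR A B, pp = AdjoinRoot.mk (ff A B) P1 := ⟨_, rfl⟩
      obtain ⟨cc, hcc⟩ : ∃ cc : RR A B, cc = AdjoinRoot.mk (ff A B) χ := ⟨_, rfl⟩
      obtain ⟨X0, hX0'⟩ : ∃ X0 : RR A B, X0 = algebraMap F (RR A B) x0 := ⟨_, rfl⟩
      obtain ⟨aa, haa⟩ : ∃ aa : RR A B, aa = algebraMap F (RR A B) a := ⟨_, rfl⟩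
      obtain ⟨ai, hai'⟩ : ∃ ai : RR A B, ai = algebraMap F (RR A B) a⁻¹ := ⟨_, rfl⟩
      rw [← hgg, ← hqq, ← hpp, ← hcc, ← hX0', ← haa] at h3
      rw [← hgg, ← hX0'] at hgD
      rw [← haa, ← hai'] at hai
      rw [← hgg, ← hqq, ← hpp, ← hcc, ← hX0', ← hai']
      have h6 : (-cc * (gg + (X0 - th A B))) * (aa * aa) =
          (gg * qq + (X0 - th A B) * pp) * (gg * qq + (X0 - th A B) * pp) := by
        linear_combination (gg + (X0 - th A B)) * h3 + (qq ^ 2 + pp ^ 2 - 2 * qq * pp) * hgD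
      have h7 : -cc * (gg + (X0 - th A B)) =
          ((-cc * (gg + (X0 - th A B))) * (aa * aa)) * (ai * ai) := by
        have h8 : aa * aa * (ai * ai) = 1 := by
          have : aa * aa * (ai * ai) = (aa * ai) * (aa * ai) := by ring
          rw [this, hai, mul_one]
        rw [mul_assoc _ (aa * aa) (ai * ai), h8, mul_one]
      rw [h7, h6]
      ring
    · -- case (iia)
      refine ⟨algebraMap F (RR A B) x0 - th A B,
        AdjoinRoot.mk (ff A B) P * algebraMap F (RR A B) a⁻¹,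
        algebraMap F (RR A B) x0 - th A B, x0, P.eval x0 / Q.eval x0, Rs_unit hfx, ?_, ?_, ?_, rfl⟩
      · intro h
        rw [div_eq_zero_iff] at h
        rcases h with h | h
        · rw [h] at hev
          have h1 : (x0 ^ 3 + A * x0 + B) * Q.eval x0 ^ 2 = 0 := by rw [← hev]; ring
          rcases mul_eq_zero.1 h1 with h2 | h2
          · exact hfx h2
          · exact hQx (pow_eq_zero_iff (two_ne_zero) |>.1 h2)
        · exact hQx h
      · rw [div_pow, hev, mul_div_assoc, div_self (pow_ne_zero 2 hQx), mul_one]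
      · rw [hGθ'] at hθ
        obtain ⟨pp, hpp⟩ : ∃ pp : RR A B, pp = AdjoinRoot.mk (ff A B) P := ⟨_, rfl⟩
        obtain ⟨cc, hcc⟩ : ∃ cc : RR A B, cc = AdjoinRoot.mk (ff A B) χ := ⟨_, rfl⟩
        obtain ⟨X0, hX0'⟩ : ∃ X0 : RR A B, X0 = algebraMap F (RR A B) x0 := ⟨_, rfl⟩
        obtain ⟨aa, haa⟩ : ∃ aa : RR A B, aa = algebraMap F (RR A B) a := ⟨_, rfl⟩
        obtain ⟨ai, hai'⟩ : ∃ ai : RR A B, ai = algebraMap F (RR A B) a⁻¹ := ⟨_, rfl⟩
        rw [← hpp, ← hcc, ← hX0', ← haa] at hθ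
        rw [← haa, ← hai'] at hai
        rw [← hpp, ← hcc, ← hX0', ← hai']
        have h8 : aa * aa * (ai * ai) = 1 := by
          have : aa * aa * (ai * ai) = (aa * ai) * (aa * ai) := by ring
          rw [this, hai, mul_one]
        have h9 : pp * ai * (pp * ai) = pp ^ 2 * (ai * ai) := by ring
        rw [h9, hθ]
        have h10 : cc * (aa * aa * (th A B - X0)) * (ai * ai) =
            cc * (th A B - X0) * (aa * aa * (ai * ai)) := by ring
        rw [h10, h8]
        ring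

theorem core (hd : 4 * A ^ 3 + 27 * B ^ 2 ≠ 0) (hinf : Infinite (Pc A B)) {k : ℕ}
    {χ P Q : Polynomial F} (hm : χ.Monic) (hn : χ.natDegree = 2 * k + 1)
    (hno : ∀ t, χ.eval t ≠ 0) (hcop : IsCoprime χ (ff A B)) (h0 : P ≠ 0 ∨ Q ≠ 0)
    (hP : P.degree < ((k + 2 : ℕ) : WithBot ℕ)) (hQ : Q.degree < ((k : ℕ) : WithBot ℕ))
    (hdvd : χ ∣ P ^ 2 - ff A B * Q ^ 2) {d : Fin 3 → F} (hnd : Te_nf A B d ≠ 0) {w : RR A B}
    (hw : tr A B d ^ (2 * k + 1) * (-(AdjoinRoot.mk (ff A B) χ)) = w * w) :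
    ∃ (x y : F) (z : Fin 3 → F), y ≠ 0 ∧ y ^ 2 = x ^ 3 + A * x + B ∧
      m3 A B d ![x, -1, 0] = m3 A B z z := by
  obtain ⟨σ, s, t, x, y, hσ, hy, hxy, hs, ht⟩ :=
    Rs_claim hd hinf hm hn hno h0 hP hQ hdvd
  have hD : IsUnit (tr A B d) := tr_unit A B hnd
  have hc : IsUnit (AdjoinRoot.mk (ff A B) χ) := by
    obtain ⟨u, v, huv⟩ := hcop
    have h1 := congrArg (AdjoinRoot.mk (ff A B)) huv
    rw [map_add, map_mul, map_mul, Rs_ff, mul_zero, add_zero, map_one] at h1
    exact IsUnit.of_mul_eq_one _ (by rw [mul_comm]; exact h1)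
  obtain ⟨z', hz'⟩ := Rs_fin hD hc hσ hw hs ht
  obtain ⟨z, hz⟩ := tr_surj A B z'
  refine ⟨x, y, z, hy, hxy, ?_⟩
  apply tr_inj A B
  rw [tr_m3, tr_m3, tr_X, hz, hz']

end H38GM
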