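import Pool.Agent.H38.GM.Ra

/-!
ROW GM/Rt (project MP_78d38b_GM, about 120 lines): the class of a point of order two is the class of a point `(x, y)` with `y ≠ 0`; the trivial class too.

`E : Y^2 = f(X)`, `f = X^3 + A X + B`, `Pc A B` is the type of points (Pool/Agent/H73/P2/Lb.lean).
triv_pt: `Lb_dbl two_ne_zero Q` for `Q` with `Q + Q ≠ 0`, `(Q + Q) + (Q + Q) ≠ 0` (`Lb_avoid hd hinf {0} ..` gives `4 • Q ≠ 0`, as in `Rl_one` of Pool/Agent/H30/OD/Od1.lean): `Lb_P A B ![1, 0, 0] (Q + Q)`; in the ring: `1 * (x - θ) = z * z` (tr_m3, tr_X; `tr ![1, 0, 0] = 1`).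
tors_pt: `f(x0) = 0`, `g = X^2 + x0 X + (x0^2 + A)`, `f = (X - x0) g`, `g(x0) = 3 x0^2 + A ≠ 0` (`(3 x0^2 + A)^2 (-3 x0^2 - 4 A) = -(4 A^3 + 27 B^2)` modulo `f(x0) = 0`). `τ := g(θ) + (x0 - θ)`.
The set of points is infinite: choose `(x1, y1)` on `E` with `y1 ≠ 0`, so `x1 ≠ x0` (`Lb_avoid`, or: only finitely many points with `y = 0` or at infinity). `λ := y1 / (x1 - x0)`, `x' := x0 + g(x0) / (x1 - x0)`, `y' := λ (x' - x0)`. Identities (field_simp; `y1^2 = f(x1)`): as polynomials in `T`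
`f(T) - λ^2 (T - x0)^2 = (T - x0)(T - x1)(T - x')` and `g(T) - λ^2 (T - x0) = (T - x1)(T - x')`. So `y'^2 = f(x')`, `y' ≠ 0`, and at `θ` (`f(θ) = 0`, `g(θ)(x0 - θ) = 0`): `τ (x1 - θ)(x' - θ) = (g(θ) + λ (x0 - θ))^2`.
`LC_mul (RingHom.id F)` (Pool/Agent/H73/P2/Lb.lean) for the classes `![x1, -1, 0]`, `![x', -1, 0]`: they are LC (`![x,-1,0] * ![x,-1,0]` is a square, the point `(x, y)`), so there is `(x2, y2)`, `y2 ≠ 0`, with `(x1 - θ)(x' - θ)(x2 - θ) = w^2`. So `τ (x2 - θ) (x1 - θ)^2 (x' - θ)^2` is a square; `x1 - θ`, `x' - θ` are units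
(`tr_unit`: the norm of `x - θ` is `f(x) = y^2 ≠ 0`), so `τ (x2 - θ)` is a square.
-/

set_option autoImplicit false
set_option linter.unusedSectionVars false
open scoped Classical

open WeierstrassCurve H76PP H30ZO H73P2 Pool.Agent.H10 H30OD

namespace H38GM

variable {F : Type} [Field F] [CharZero F] {A B : F}

theorem triv_pt (hd : 4 * A ^ 3 + 27 * B ^ 2 ≠ 0) (hinf : Infinite (Pc A B)) :
    ∃ (x y : F) (z : RR A B), y ≠ 0 ∧ y ^ 2 = x ^ 3 + A * x + B ∧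
      algebraMap F (RR A B) x - th A B = z * z := by
  obtain ⟨Q, hQ⟩ := Lb_avoid hd hinf {0} (Set.finite_singleton 0)
  have h4 : 4 • Q ≠ 0 := hQ 0 rfl
  have e4 : 4 • Q = (Q + Q) + (Q + Q) := by abel
  have hL : Lb_P A B ![1, 0, 0] (Q + Q) := by
    refine Lb_dbl two_ne_zero Q ?_ ?_
    · intro h
      apply h4
      rw [e4, h, add_zero]
    · rw [← e4]
      exact h4
  obtain ⟨x, y, h, z, -, hy, hz⟩ := hL
  refine ⟨x, y, tr A B z, hy, Lb_eqn h, ?_⟩
  have h1 := congrArg (tr A B) hz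
  rw [tr_m3, tr_m3, tr_X] at h1
  have h2 : tr A B ![1, 0, 0] = 1 := by
    simp [tr]
  rw [h2, one_mul] at h1
  exact h1

theorem tors_pt (hd : 4 * A ^ 3 + 27 * B ^ 2 ≠ 0) (hinf : Infinite (Pc A B)) {x0 : F}
    (h0 : x0 ^ 3 + A * x0 + B = 0) :
    ∃ (x y : F) (z : RR A B), y ≠ 0 ∧ y ^ 2 = x ^ 3 + A * x + B ∧
      ((th A B ^ 2 + algebraMap F _ x0 * th A B + algebraMap F _ (x0 ^ 2 + A)) +
        (algebraMap F _ x0 - th A B)) * (algebraMap F (RR A B) x - th A B) = z * z := by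
  obtain ⟨x1, y1, z1, hy1, e1, hz1⟩ := triv_pt hd hinf
  have hg : 3 * x0 ^ 2 + A ≠ 0 := by
    intro h
    apply hd
    have hA : A = -3 * x0 ^ 2 := by linear_combination h
    have hB : B = 2 * x0 ^ 3 := by
      rw [hA] at h0
      linear_combination h0
    rw [hA, hB]
    ring
  have hx : x1 - x0 ≠ 0 := by
    intro h
    have hx1 : x1 = x0 := sub_eq_zero.1 h
    rw [hx1, h0] at e1
    exact hy1 (pow_eq_zero_iff two_ne_zero |>.1 e1)
  obtain ⟨l, hl⟩ : ∃ l : F, l * (x1 - x0) = y1 := ⟨y1 / (x1 - x0), div_mul_cancel₀ _ hx⟩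
  obtain ⟨x, hxx⟩ : ∃ x : F, (x - x0) * (x1 - x0) = 3 * x0 ^ 2 + A :=
    ⟨x0 + (3 * x0 ^ 2 + A) / (x1 - x0), by field_simp; ring⟩
  have hl0 : l ≠ 0 := by
    rintro rfl
    apply hy1
    rw [← hl, zero_mul]
  have hxx0 : x - x0 ≠ 0 := by
    intro h
    apply hg
    rw [← hxx, h, zero_mul]
  -- the slope relation: `l^2 (x1 - x0) = g(x1)`
  have hl2 : l ^ 2 * (x1 - x0) = x1 ^ 2 + x0 * x1 + (x0 ^ 2 + A) := by
    apply mul_left_cancel₀ hx
    have : (l * (x1 - x0)) ^ 2 = x1 ^ 3 + A * x1 + B := by rw [hl, e1]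
    linear_combination this + h0
  -- sum of the roots of `g(T) - l^2 (T - x0)`
  have hs : l ^ 2 = x0 + x1 + x := by
    apply mul_left_cancel₀ hx
    linear_combination hl2 - hxx
  have hp : x1 * x = x0 ^ 2 + A + l ^ 2 * x0 := by
    rw [hs]
    linear_combination hxx
  have hyx : (l * (x - x0)) ^ 2 = x ^ 3 + A * x + B := by
    have hB : B = -(x0 ^ 3 + A * x0) := by linear_combination h0
    rw [hB]
    linear_combination (x - x0) * x * hs + (x - x0) * hp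
  have hunit : IsUnit (algebraMap F (RR A B) x1 - th A B) := by
    rw [← tr_X]
    apply tr_unit
    have : Te_nf A B ![x1, -1, 0] = y1 ^ 2 := by
      rw [e1]
      simp [Te_nf]
      ring
    rw [this]
    exact pow_ne_zero 2 hy1
  have hz1u : IsUnit z1 := by
    rw [hz1] at hunit
    exact isUnit_of_mul_isUnit_left hunit
  obtain ⟨u, hu⟩ := hz1u
  have hr := th_root A B
  set t := th A B with ht
  set a := algebraMap F (RR A B) with ha
  have hs' : a l ^ 2 = a x0 + a x1 + a x := by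
    rw [← map_pow, hs, map_add, map_add]
  have hp' : a x1 * a x = a x0 ^ 2 + a A + a l ^ 2 * a x0 := by
    rw [← map_mul, hp, map_add, map_add, map_mul, map_pow, map_pow]
  have h0' : a x0 ^ 3 + a A * a x0 + a B = 0 := by
    rw [← map_pow, ← map_mul, ← map_add, ← map_add, h0, map_zero]
  have hkey : ((t ^ 2 + a x0 * t + a (x0 ^ 2 + A)) + (a x0 - t)) * ((a x - t) * (a x1 - t)) =
      ((t ^ 2 + a x0 * t + a (x0 ^ 2 + A)) + a l * (a x0 - t)) ^ 2 := by
    have hgx : (t ^ 2 + a x0 * t + a (x0 ^ 2 + A)) * (a x0 - t) = 0 := by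
      rw [map_add, map_pow]
      linear_combination h0' - hr
    have hq : (a x - t) * (a x1 - t) =
        (t ^ 2 + a x0 * t + a (x0 ^ 2 + A)) + a l ^ 2 * (a x0 - t) := by
      rw [map_add, map_pow]
      linear_combination hp' + t * hs'
    rw [hq]
    linear_combination (1 + a l ^ 2 - 2 * a l) * hgx
  refine ⟨x, l * (x - x0), ((t ^ 2 + a x0 * t + a (x0 ^ 2 + A)) + a l * (a x0 - t)) * ↑u⁻¹,
    mul_ne_zero hl0 hxx0, hyx, ?_⟩
  have huu : (u : RR A B) * ↑u⁻¹ = 1 := Units.mul_inv u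
  rw [← hu] at hz1
  rw [hz1] at hkey
  generalize ((t ^ 2 + a x0 * t + a (x0 ^ 2 + A)) + (a x0 - t)) = τ at hkey ⊢
  generalize ((t ^ 2 + a x0 * t + a (x0 ^ 2 + A)) + a l * (a x0 - t)) = s at hkey ⊢
  generalize ((u⁻¹ : (RR A B)ˣ) : RR A B) = v at huu ⊢
  generalize (u : RR A B) = w at huu hkey
  generalize a x - t = r at hkey ⊢
  linear_combination v ^ 2 * hkey - τ * r * (w * v + 1) * huu

end H38GM
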